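import Mathlib

set_option autoImplicit false

namespace Pool.Agent.Helper52.MF

open Finset Polynomial

/-- A finite abstract simplicial complex with vertex set `V` (every element of `V` is a vertex). -/
structure Cpx (V : Type) [DecidableEq V] where
  faces : Finset (Finset V)
  empty_mem : ∅ ∈ faces
  down : ∀ s ∈ faces, ∀ t ⊆ s, t ∈ faces
  vert : ∀ v, {v} ∈ faces

section defs

variable {V : Type} [DecidableEq V]

/-- The link of `s`. -/
def link (D : Cpx V) (s : Finset V) : Finset (Finset V) :=
  D.faces.filter (fun t => Disjoint t s ∧ t ∪ s ∈ D.faces)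

/-- Simplicial chains over `ZMod 2` of the family of faces `L`, on faces with `k` elements
(dimension `k - 1`). -/
abbrev Chain (L : Finset (Finset V)) (k : ℕ) : Type :=
  {t : Finset V // t ∈ L ∧ t.card = k} → ZMod 2

instance (L : Finset (Finset V)) (k : ℕ) : Fintype {t : Finset V // t ∈ L ∧ t.card = k} :=
  Fintype.subtype (L.filter (fun t => t.card = k)) (by simp)

/-- The simplicial boundary map over `ZMod 2`. -/
def bd (L : Finset (Finset V)) (k : ℕ) : Chain L (k + 1) →ₗ[ZMod 2] Chain L k where
  toFun c t := ∑ u : {u : Finset V // u ∈ L ∧ u.card = k + 1}, if t.1 ⊆ u.1 then c u else 0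
  map_add' c c' := by
    ext t
    simp only [Pi.add_apply, ← Finset.sum_add_distrib]
    refine Finset.sum_congr rfl fun u _ => ?_
    split_ifs <;> simp
  map_smul' a c := by
    ext t
    simp only [Pi.smul_apply, smul_eq_mul, RingHom.id_apply, Finset.mul_sum]
    refine Finset.sum_congr rfl fun u _ => ?_
    split_ifs <;> simp

/-- Cycles; in the lowest degree (the empty face) every chain is a cycle. -/
def cyc (L : Finset (Finset V)) : (k : ℕ) → Submodule (ZMod 2) (Chain L k)
  | 0 => ⊤
  | k + 1 => LinearMap.ker (bd L k)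

/-- Reduced simplicial homology over `ZMod 2`, indexed by the number of vertices
(`RedHom L k` is the group in dimension `k - 1`). -/
abbrev RedHom (L : Finset (Finset V)) (k : ℕ) : Type :=
  cyc L k ⧸ (LinearMap.range (bd L k)).submoduleOf (cyc L k)

/-- `D` is a `ZMod 2`-homology `(d-1)`-sphere. -/
def IsSphere (D : Cpx V) (d : ℕ) : Prop :=
  (∀ s ∈ D.faces, ∃ t ∈ D.faces, s ⊆ t ∧ t.card = d) ∧
  (∀ s ∈ D.faces, s.card ≤ d) ∧
  (∀ s ∈ D.faces, ∀ k : ℕ,
    Module.finrank (ZMod 2) (RedHom (link D s) k) = if k = d - s.card then 1 else 0)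

/-- Missing faces. -/
def IsMissing (D : Cpx V) (t : Finset V) : Prop :=
  t ∉ D.faces ∧ ∀ s, s ⊂ t → s ∈ D.faces

/-- `S(i, d-1)`. -/
def InS (D : Cpx V) (i d : ℕ) : Prop :=
  IsSphere D d ∧ ∀ t, IsMissing D t → t.card ≤ i + 1

/-- number of faces with `k` elements, i.e. `f_{k-1}`. -/
def fnum (D : Cpx V) (k : ℕ) : ℕ := (D.faces.filter (fun s => s.card = k)).card

/-- `h_j`. -/
def hnum (D : Cpx V) (d j : ℕ) : ℤ :=
  ∑ k ∈ Finset.range (j + 1), (-1) ^ (j - k) * ((d - k).choose (d - j) : ℤ) * (fnum D k : ℤ)

/-- `g_j`. -/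
def gnum (D : Cpx V) (d j : ℕ) : ℤ :=
  if j = 0 then 1 else hnum D d j - hnum D d (j - 1)

/-- Isomorphism of complexes. -/
def Iso {W : Type} [DecidableEq W] (D : Cpx V) (E : Cpx W) : Prop :=
  ∃ e : V ≃ W, ∀ s : Finset V, s ∈ D.faces ↔ s.map e.toEmbedding ∈ E.faces

end defs

/-- Boundary complex of the `n`-simplex, `n ≥ 1`. -/
def bdSimplex (n : ℕ) (hn : 1 ≤ n) : Cpx (Fin (n + 1)) where
  faces := univ.filter (fun s => s ≠ univ)
  empty_mem := by
    simp only [mem_filter, mem_univ, true_and, ne_eq]
    intro h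
    have := congrArg Finset.card h
    simp at this
  down := by
    intro s hs t ht
    simp only [mem_filter, mem_univ, true_and, ne_eq] at hs ⊢
    intro h
    exact hs (Finset.eq_univ_of_forall fun x => ht (h ▸ mem_univ x))
  vert := by
    intro v
    simp only [mem_filter, mem_univ, true_and, ne_eq]
    intro h
    have := congrArg Finset.card h
    simp at this
    omega

/-- Join of a finite family of complexes. -/
def join {J : Type} [Fintype J] [DecidableEq J] (X : J → Type) [∀ j, Fintype (X j)]
    [∀ j, DecidableEq (X j)] (D : ∀ j, Cpx (X j)) : Cpx (Σ j, X j) where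
  faces := univ.filter (fun s => ∀ j, (univ.filter (fun x : X j => (⟨j, x⟩ : Σ j, X j) ∈ s)) ∈
    (D j).faces)
  empty_mem := by
    simp [(D _).empty_mem]
  down := by
    intro s hs t ht
    simp only [mem_filter, mem_univ, true_and] at hs ⊢
    intro j
    refine (D j).down _ (hs j) _ ?_
    intro x hx
    simp only [mem_filter, mem_univ, true_and] at hx ⊢
    exact ht hx
  vert := by
    rintro ⟨j, x⟩
    simp only [mem_filter, mem_univ, true_and, mem_singleton]
    intro j'
    by_cases h : j' = j
    · subst h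
      have : (univ.filter (fun y : X j' => (⟨j', y⟩ : Σ j, X j) = ⟨j', x⟩)) = {x} := by
        ext y; simp
      rw [this]; exact (D j').vert x
    · have : (univ.filter (fun y : X j' => (⟨j', y⟩ : Σ j, X j) = ⟨j, x⟩)) = ∅ := by
        ext y
        simp only [mem_filter, mem_univ, true_and, notMem_empty, iff_false]
        intro hh
        exact h (congrArg Sigma.fst hh)
      rw [this]; exact (D j').empty_mem

/-- dimension of the `j`-th simplex in `K(i, q i + r - 1)`. -/
def blk (q i r : ℕ) (j : Fin (q + 1)) : ℕ := if j.1 < q then i else r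

/-- `K(i, d-1)` for `d = q i + r`: the join of `q` copies of the boundary of the `i`-simplex
with the boundary of the `r`-simplex. -/
def K (q i r : ℕ) (hi : 1 ≤ i) (hr : 1 ≤ r) : Cpx (Σ j : Fin (q + 1), Fin (blk q i r j + 1)) :=
  join (fun j : Fin (q + 1) => Fin (blk q i r j + 1))
    (fun j => bdSimplex (blk q i r j) (by unfold blk; split_ifs <;> assumption))

end Pool.Agent.Helper52.MF
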