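import Mathlib

/-!
# The lower bound in the theorem of Jarník and Besicovitch
-/

open Set Metric Filter Topology Function
open scoped NNReal ENNReal

namespace Pool.Agent.Helper53.MF.JB

/-- numerators of the fractions with denominator `q` in `[a, a + ℓ]` -/
noncomputable def P (a ℓ : ℝ) (q : ℕ) : Finset ℤ := Finset.Icc ⌈a * q⌉ ⌊(a + ℓ) * q⌋

lemma mem_P {a ℓ : ℝ} {q : ℕ} {p : ℤ} : p ∈ P a ℓ q ↔ a * q ≤ p ∧ (p : ℝ) ≤ (a + ℓ) * q := by
  rw [P, Finset.mem_Icc, Int.ceil_le, Int.le_floor]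

lemma card_P_ge (a ℓ : ℝ) (q : ℕ) : ℓ * q - 1 ≤ ((P a ℓ q).card : ℝ) := by
  rw [P, Int.card_Icc]
  have h1 : (⌊(a + ℓ) * q⌋ + 1 - ⌈a * q⌉ : ℤ) ≤ ((⌊(a + ℓ) * q⌋ + 1 - ⌈a * q⌉).toNat : ℤ) :=
    Int.self_le_toNat _
  have h2 : ((⌊(a + ℓ) * q⌋ + 1 - ⌈a * q⌉ : ℤ) : ℝ) ≤
      (((⌊(a + ℓ) * q⌋ + 1 - ⌈a * q⌉).toNat : ℤ) : ℝ) := by exact_mod_cast h1
  push_cast at h2
  have h3 := Int.sub_one_lt_floor ((a + ℓ) * q)
  have h4 := Int.ceil_lt_add_one (a * q)
  nlinarith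

lemma card_P_le (a : ℝ) {ℓ : ℝ} (hℓ : 0 ≤ ℓ) (q : ℕ) : ((P a ℓ q).card : ℝ) ≤ ℓ * q + 1 := by
  rw [P, Int.card_Icc]
  have h1 : (((⌊(a + ℓ) * q⌋ + 1 - ⌈a * q⌉).toNat : ℤ)) =
      max (⌊(a + ℓ) * q⌋ + 1 - ⌈a * q⌉) 0 := Int.toNat_eq_max _
  have h2 : (((⌊(a + ℓ) * q⌋ + 1 - ⌈a * q⌉).toNat : ℝ)) =
      max ((⌊(a + ℓ) * q⌋ : ℝ) + 1 - ⌈a * q⌉) 0 := by exact_mod_cast h1
  rw [h2]
  apply max_le
  · have h3 := Int.floor_le ((a + ℓ) * q)
    have h4 := Int.le_ceil (a * q)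
    nlinarith
  · positivity

/-- the pairs (denominator, numerator) with denominator at most `Q` and value in the interval -/
noncomputable def D (a ℓ : ℝ) (Q : ℕ) : Finset (Σ _ : ℕ, ℤ) := (Finset.Icc 1 Q).sigma (fun q => P a ℓ q)

/-- the value of a pair -/
def f (z : Σ _ : ℕ, ℤ) : ℚ := (z.2 : ℚ) / (z.1 : ℚ)

/-- the fractions with denominator at most `Q` in the interval -/
noncomputable def T (a ℓ : ℝ) (Q : ℕ) : Finset ℚ := (D a ℓ Q).image f

lemma sum_Icc_id (Q : ℕ) : ∑ q ∈ Finset.Icc 1 Q, (q : ℝ) = Q * (Q + 1) / 2 := by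
  induction Q with
  | zero => simp
  | succ n ih =>
    rw [Finset.sum_Icc_succ_top (by omega), ih]
    push_cast
    ring

lemma card_D_ge (a ℓ : ℝ) (Q : ℕ) : ℓ * (Q * (Q + 1) / 2) - Q ≤ ((D a ℓ Q).card : ℝ) := by
  rw [D, Finset.card_sigma]
  push_cast
  calc ℓ * (Q * (Q + 1) / 2) - Q = ∑ q ∈ Finset.Icc 1 Q, (ℓ * q - 1) := by
        rw [Finset.sum_sub_distrib, ← Finset.mul_sum, sum_Icc_id]
        simp
    _ ≤ _ := Finset.sum_le_sum fun q _ => card_P_ge a ℓ q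

lemma mem_T {a ℓ : ℝ} {Q : ℕ} {x : ℚ} (hx : x ∈ T a ℓ Q) :
    a ≤ x ∧ (x : ℝ) ≤ a + ℓ ∧ x.den ≤ Q := by
  obtain ⟨⟨q, p⟩, hz, rfl⟩ := Finset.mem_image.1 hx
  rw [D, Finset.mem_sigma, Finset.mem_Icc, mem_P] at hz
  obtain ⟨⟨hq1, hq2⟩, h1, h2⟩ := hz
  simp only at hq1 hq2 h1 h2
  have hq : (0 : ℝ) < q := by exact_mod_cast hq1
  refine ⟨?_, ?_, ?_⟩
  · simp only [f]
    push_cast
    rwa [le_div_iff₀ hq]
  · simp only [f]
    push_cast
    rwa [div_le_iff₀ hq]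
  · simp only [f]
    refine (Nat.le_of_dvd (by omega) ?_).trans hq2
    have := Rat.den_dvd p q
    rw [Rat.divInt_eq_div] at this
    exact_mod_cast this

lemma card_fibre_le (a ℓ : ℝ) (Q : ℕ) (x : ℚ) :
    ((D a ℓ Q).filter (fun z => f z = x)).card ≤ Q / x.den := by
  have hdx : 0 < x.den := x.den_pos
  have hcard : (Finset.Icc 1 (Q / x.den)).card = Q / x.den := by simp
  rw [← hcard]
  have key : ∀ z ∈ (D a ℓ Q).filter (fun z => f z = x),
      (1 ≤ z.1 ∧ z.1 ≤ Q) ∧ x.den ∣ z.1 ∧ (z.2 : ℚ) = x * z.1 := by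
    rintro ⟨q, p⟩ hz
    rw [Finset.mem_filter, D, Finset.mem_sigma, Finset.mem_Icc] at hz
    obtain ⟨⟨⟨hq1, hq2⟩, -⟩, h3⟩ := hz
    simp only at hq1 hq2
    simp only [f] at h3
    refine ⟨⟨hq1, hq2⟩, ?_, ?_⟩
    · have := Rat.den_dvd p q
      rw [Rat.divInt_eq_div] at this
      push_cast at this
      rw [h3] at this
      exact_mod_cast this
    · have hq0 : (q : ℚ) ≠ 0 := by
        have : q ≠ 0 := by omega
        exact_mod_cast this
      simp only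
      rw [← h3]
      field_simp
  apply Finset.card_le_card_of_injOn (fun z => z.1 / x.den)
  · intro z hz
    obtain ⟨⟨h1, h2⟩, h3, h4⟩ := key z hz
    rw [Finset.mem_coe, Finset.mem_Icc]
    exact ⟨Nat.div_pos (Nat.le_of_dvd (by omega) h3) hdx, Nat.div_le_div_right h2⟩
  · intro z hz z' hz' heq
    obtain ⟨⟨h1, h2⟩, h3, h4⟩ := key z hz
    obtain ⟨⟨h1', h2'⟩, h3', h4'⟩ := key z' hz'
    obtain ⟨k, hk⟩ := h3
    obtain ⟨k', hk'⟩ := h3'
    have e1 : z.1 = z'.1 := by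
      have : z.1 / x.den = z'.1 / x.den := heq
      rw [hk, hk', Nat.mul_div_cancel_left _ hdx, Nat.mul_div_cancel_left _ hdx] at this
      rw [hk, hk', this]
    have e2 : z.2 = z'.2 := by
      have : (z.2 : ℚ) = z'.2 := by rw [h4, h4', e1]
      exact_mod_cast this
    exact Sigma.ext e1 (heq_of_eq e2)

lemma card_den_le (a : ℝ) {ℓ : ℝ} (hℓ : 0 ≤ ℓ) (Q b : ℕ) :
    ((((T a ℓ Q).filter (fun x => x.den = b)).card : ℕ) : ℝ) ≤ ℓ * b + 1 := by
  refine le_trans ?_ (card_P_le a hℓ b)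
  have : ((T a ℓ Q).filter (fun x => x.den = b)).card ≤ (P a ℓ b).card := by
    apply Finset.card_le_card_of_injOn (fun x => x.num)
    · intro x hx
      rw [Finset.mem_coe, Finset.mem_filter] at hx
      obtain ⟨hx1, hx2⟩ := hx
      obtain ⟨h1, h2, -⟩ := mem_T hx1
      rw [Finset.mem_coe, mem_P]
      have hb : (0 : ℝ) < b := by
        rw [← hx2]; exact_mod_cast x.den_pos
      have e : (x : ℝ) = x.num / b := by
        rw [← hx2]
        exact Rat.cast_def x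
      rw [e] at h1 h2
      exact ⟨(le_div_iff₀ hb).1 h1, (div_le_iff₀ hb).1 h2⟩
    · intro x hx y hy hxy
      rw [Finset.mem_coe, Finset.mem_filter] at hx hy
      exact Rat.ext hxy (by rw [hx.2, hy.2])
  exact_mod_cast this

lemma sum_inv_le (n : ℕ) : ∑ b ∈ Finset.Icc 1 n, ((b : ℝ))⁻¹ ≤ 1 + Real.log n := by
  have h := harmonic_le_one_add_log n
  rw [harmonic_eq_sum_Icc] at h
  push_cast at h
  exact h

lemma card_T_ge (a : ℝ) {ℓ : ℝ} (hℓ : 0 ≤ ℓ) {Q : ℕ} (hQ : 1 ≤ Q) :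
    ℓ * Q ^ 2 / 4 - Q * (2 + Real.log Q) ≤ 4 * ((T a ℓ Q).card : ℝ) := by
  have hQR : (1 : ℝ) ≤ Q := by exact_mod_cast hQ
  have h1 := card_D_ge a ℓ Q
  have h2 : (D a ℓ Q).card ≤ ∑ x ∈ T a ℓ Q, Q / x.den := by
    rw [Finset.card_eq_sum_card_image f (D a ℓ Q)]
    exact Finset.sum_le_sum fun x _ => card_fibre_le a ℓ Q x
  have h2R : ((D a ℓ Q).card : ℝ) ≤ ∑ x ∈ T a ℓ Q, ((Q / x.den : ℕ) : ℝ) := by
    exact_mod_cast h2
  have h3 : ∀ x ∈ T a ℓ Q, ((Q / x.den : ℕ) : ℝ) ≤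
      4 + (if 4 * x.den ≤ Q then (Q : ℝ) * ((x.den : ℝ))⁻¹ else 0) := by
    intro x hx
    have hdx : 0 < x.den := x.den_pos
    split_ifs with h
    · have : ((Q / x.den : ℕ) : ℝ) ≤ (Q : ℝ) / x.den := Nat.cast_div_le
      rw [← div_eq_mul_inv]
      linarith
    · have : Q / x.den ≤ 4 := by
        apply Nat.le_of_lt_succ
        rw [Nat.div_lt_iff_lt_mul hdx]
        omega
      have : ((Q / x.den : ℕ) : ℝ) ≤ 4 := by exact_mod_cast this
      linarith
  have h4 : ((D a ℓ Q).card : ℝ) ≤ 4 * (T a ℓ Q).card +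
      ∑ x ∈ (T a ℓ Q).filter (fun x => 4 * x.den ≤ Q), (Q : ℝ) * ((x.den : ℝ))⁻¹ := by
    refine h2R.trans ((Finset.sum_le_sum h3).trans ?_)
    rw [Finset.sum_add_distrib, Finset.sum_filter]
    simp [mul_comm]
  have h5 : ∑ x ∈ (T a ℓ Q).filter (fun x => 4 * x.den ≤ Q), (Q : ℝ) * ((x.den : ℝ))⁻¹ ≤
      ∑ b ∈ Finset.Icc 1 (Q / 4), (ℓ * b + 1) * ((Q : ℝ) * (b : ℝ)⁻¹) := by
    have hmap : ∀ x ∈ (T a ℓ Q).filter (fun x => 4 * x.den ≤ Q), x.den ∈ Finset.Icc 1 (Q / 4) := by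
      intro x hx
      rw [Finset.mem_filter] at hx
      rw [Finset.mem_Icc]
      refine ⟨x.den_pos, ?_⟩
      omega
    rw [← Finset.sum_fiberwise_of_maps_to hmap]
    apply Finset.sum_le_sum
    intro b hb
    have hb1 : 1 ≤ b := (Finset.mem_Icc.1 hb).1
    calc ∑ x ∈ ((T a ℓ Q).filter (fun x => 4 * x.den ≤ Q)).filter (fun x => x.den = b),
          (Q : ℝ) * ((x.den : ℝ))⁻¹
        = ∑ x ∈ ((T a ℓ Q).filter (fun x => 4 * x.den ≤ Q)).filter (fun x => x.den = b),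
          (Q : ℝ) * ((b : ℝ))⁻¹ := by
          apply Finset.sum_congr rfl
          intro x hx
          rw [(Finset.mem_filter.1 hx).2]
      _ = ((((T a ℓ Q).filter (fun x => 4 * x.den ≤ Q)).filter (fun x => x.den = b)).card : ℝ) *
          ((Q : ℝ) * ((b : ℝ))⁻¹) := by
          rw [Finset.sum_const, nsmul_eq_mul]
      _ ≤ (ℓ * b + 1) * ((Q : ℝ) * (b : ℝ)⁻¹) := by
          apply mul_le_mul_of_nonneg_right _ (by positivity)
          refine le_trans ?_ (card_den_le a hℓ Q b)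
          have : (((T a ℓ Q).filter (fun x => 4 * x.den ≤ Q)).filter (fun x => x.den = b)).card ≤
              ((T a ℓ Q).filter (fun x => x.den = b)).card := by
            apply Finset.card_le_card
            intro x hx
            rw [Finset.mem_filter, Finset.mem_filter] at hx
            rw [Finset.mem_filter]
            exact ⟨hx.1.1, hx.2⟩
          exact_mod_cast this
  have h6 : ∑ b ∈ Finset.Icc 1 (Q / 4), (ℓ * b + 1) * ((Q : ℝ) * (b : ℝ)⁻¹) =
      ((Q / 4 : ℕ) : ℝ) * (ℓ * Q) + Q * ∑ b ∈ Finset.Icc 1 (Q / 4), ((b : ℝ))⁻¹ := by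
    calc ∑ b ∈ Finset.Icc 1 (Q / 4), (ℓ * b + 1) * ((Q : ℝ) * (b : ℝ)⁻¹)
        = ∑ b ∈ Finset.Icc 1 (Q / 4), (ℓ * Q + Q * (b : ℝ)⁻¹) := by
          apply Finset.sum_congr rfl
          intro b hb
          have hb1 : 1 ≤ b := (Finset.mem_Icc.1 hb).1
          have hb0 : (b : ℝ) ≠ 0 := by
            have : b ≠ 0 := by omega
            exact_mod_cast this
          field_simp
      _ = _ := by
          rw [Finset.sum_add_distrib, Finset.mul_sum]
          simp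
  have h7 : ∑ b ∈ Finset.Icc 1 (Q / 4), ((b : ℝ))⁻¹ ≤ 1 + Real.log Q := by
    calc ∑ b ∈ Finset.Icc 1 (Q / 4), ((b : ℝ))⁻¹ ≤ ∑ b ∈ Finset.Icc 1 Q, ((b : ℝ))⁻¹ := by
          apply Finset.sum_le_sum_of_subset_of_nonneg
          · apply Finset.Icc_subset_Icc_right
            exact Nat.div_le_self Q 4
          · intro i _ _
            positivity
      _ ≤ _ := sum_inv_le Q
  have h8 : ((Q / 4 : ℕ) : ℝ) ≤ (Q : ℝ) / 4 := by
    have : ((Q / 4 : ℕ) : ℝ) ≤ (Q : ℝ) / ((4 : ℕ) : ℝ) := Nat.cast_div_le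
    simpa using this
  have h9 : ((Q / 4 : ℕ) : ℝ) * (ℓ * Q) ≤ (Q : ℝ) / 4 * (ℓ * Q) := by gcongr
  have h10 : (Q : ℝ) * ∑ b ∈ Finset.Icc 1 (Q / 4), ((b : ℝ))⁻¹ ≤ Q * (1 + Real.log Q) := by gcongr
  have h11 : 0 ≤ ℓ * Q := by positivity
  nlinarith

/-- the counting lemma -/
lemma eventually_card_T {ℓ : ℝ} (hℓ : 0 < ℓ) :
    ∀ᶠ Q : ℕ in atTop, ∀ a : ℝ, ℓ * Q ^ 2 / 32 ≤ ((T a ℓ Q).card : ℝ) := by
  have hlog : Tendsto (fun Q : ℕ => (2 + Real.log Q) / (Q : ℝ)) atTop (𝓝 0) := by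
    have h1 : Tendsto (fun x : ℝ => (2 + Real.log x) / x) atTop (𝓝 0) := by
      have h2 : Tendsto (fun x : ℝ => 2 / x) atTop (𝓝 0) :=
        tendsto_const_nhds.div_atTop tendsto_id
      have h3 : Tendsto (fun x : ℝ => Real.log x / x) atTop (𝓝 0) := by
        have := Real.isLittleO_log_id_atTop.tendsto_div_nhds_zero
        simpa using this
      have := h2.add h3
      simpa [add_div] using this
    exact h1.comp tendsto_natCast_atTop_atTop
  filter_upwards [hlog.eventually_lt_const (show (0 : ℝ) < ℓ / 8 by positivity),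
    eventually_ge_atTop 1] with Q h1 hQ a
  have hQR : (1 : ℝ) ≤ Q := by exact_mod_cast hQ
  have h2 := card_T_ge a hℓ.le hQ
  rw [div_lt_iff₀ (by linarith)] at h1
  nlinarith

lemma sep {x y : ℚ} {Q : ℕ} (hx : x.den ≤ Q) (hy : y.den ≤ Q) (hxy : x < y) :
    1 / (Q : ℝ) ^ 2 ≤ (y : ℝ) - x := by
  have hdx : 0 < x.den := x.den_pos
  have hdy : 0 < y.den := y.den_pos
  have hQ : 0 < Q := by omega
  have hQR : (0 : ℝ) < Q := by exact_mod_cast hQ
  have ex : (x : ℝ) = x.num / x.den := Rat.cast_def x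
  have ey : (y : ℝ) = y.num / y.den := Rat.cast_def y
  have hdxR : (0 : ℝ) < x.den := by exact_mod_cast hdx
  have hdyR : (0 : ℝ) < y.den := by exact_mod_cast hdy
  have h0 : (0 : ℝ) < y - x := by
    have : (x : ℝ) < y := by exact_mod_cast hxy
    linarith
  have h1 : ((y : ℝ) - x) * (x.den * y.den) = ((y.num * x.den - x.num * y.den : ℤ) : ℝ) := by
    rw [ex, ey]
    push_cast
    field_simp
  have h2 : (0 : ℝ) < ((y.num * x.den - x.num * y.den : ℤ) : ℝ) := by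
    rw [← h1]; positivity
  have h3 : (1 : ℝ) ≤ ((y.num * x.den - x.num * y.den : ℤ) : ℝ) := by
    have : (0 : ℤ) < y.num * x.den - x.num * y.den := by exact_mod_cast h2
    have : (1 : ℤ) ≤ y.num * x.den - x.num * y.den := this
    exact_mod_cast this
  rw [← h1] at h3
  have h4 : (x.den : ℝ) * y.den ≤ Q ^ 2 := by
    have a1 : (x.den : ℝ) ≤ Q := by exact_mod_cast hx
    have a2 : (y.den : ℝ) ≤ Q := by exact_mod_cast hy
    nlinarith
  rw [div_le_iff₀ (by positivity)]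
  nlinarith

/-- increasing sequences with gaps at least `δ` are separated linearly -/
lemma linear_sep {c : ℕ → ℝ} {N : ℕ} {δ : ℝ} (h : ∀ k, k + 1 < N → c k + δ ≤ c (k + 1)) :
    ∀ i j, i ≤ j → j < N → ((j : ℝ) - i) * δ ≤ c j - c i := by
  intro i j hij
  induction j, hij using Nat.le_induction with
  | base => intro _; simp
  | succ j hij ih =>
    intro hj
    have h1 := ih (by omega)
    have h2 := h j hj
    push_cast
    nlinarith

/-- well approximated at scale `ρ` -/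
def App (w ρ u : ℝ) : Prop :=
  ∃ pq : ℤ × ℤ, 1 ≤ pq.2 ∧ (pq.2 : ℝ) ^ w * |pq.2 * u - pq.1| < 1 ∧
    |u - pq.1 / pq.2| ≤ ρ

/-- The splitting step. -/
lemma split_step {w s : ℝ} (hw : 1 < w) (hs1 : s * (w + 1) < 2)
    (x : ℝ) {r : ℝ} (hr : 0 < r) (m : ℝ) :
    ∃ (N : ℕ) (c : ℕ → ℝ) (r' : ℝ), 0 < N ∧ 0 < r' ∧ r' ≤ r / 2 ∧
      (∀ j < N, closedBall (c j) r' ⊆ closedBall x r ∧ ∀ u ∈ closedBall (c j) r', App w r' u) ∧
      (∀ i < N, ∀ j < N, ∀ u ∈ closedBall (c i) r', ∀ v ∈ closedBall (c j) r',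
        |(i : ℝ) - j| * (r / N / 64) ≤ dist u v) ∧
      m / N ≤ r' ^ s := by
  have hw1 : 0 < w + 1 := by linarith
  -- choose `Q`
  have hcast : Tendsto (fun Q : ℕ => (Q : ℝ)) atTop atTop := tendsto_natCast_atTop_atTop
  have e1 := eventually_card_T hr
  have e2 : ∀ᶠ Q : ℕ in atTop, (Q : ℝ) ^ (-(w + 1)) < r := by
    have : Tendsto (fun Q : ℕ => (Q : ℝ) ^ (-(w + 1))) atTop (𝓝 0) :=
      (tendsto_rpow_neg_atTop hw1).comp hcast
    exact this.eventually_lt_const hr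
  have e3 : ∀ᶠ Q : ℕ in atTop, (Q : ℝ) ^ (-(w - 1)) < 1 / 2 := by
    have : Tendsto (fun Q : ℕ => (Q : ℝ) ^ (-(w - 1))) atTop (𝓝 0) :=
      (tendsto_rpow_neg_atTop (by linarith)).comp hcast
    exact this.eventually_lt_const (by norm_num)
  have e4 : ∀ᶠ Q : ℕ in atTop, 32 * m * 2 ^ s / r ≤ (Q : ℝ) ^ (2 - s * (w + 1)) := by
    have : Tendsto (fun Q : ℕ => (Q : ℝ) ^ (2 - s * (w + 1))) atTop atTop :=
      (tendsto_rpow_atTop (by linarith)).comp hcast
    exact this.eventually_ge_atTop _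
  obtain ⟨Q, hT, hQr, hQ2, hQm, hQ1⟩ :=
    (e1.and (e2.and (e3.and (e4.and (eventually_ge_atTop 1))))).exists
  have hQR : (1 : ℝ) ≤ Q := by exact_mod_cast hQ1
  have hQpos : (0 : ℝ) < Q := by linarith
  set S := T (x - r / 2) r Q with hS
  have hcard : r * Q ^ 2 / 32 ≤ (S.card : ℝ) := hT (x - r / 2)
  set N := S.card with hN
  have hNpos : (0 : ℝ) < N := lt_of_lt_of_le (by positivity) hcard
  have hN0 : 0 < N := by exact_mod_cast hNpos
  set r' : ℝ := (Q : ℝ) ^ (-(w + 1)) / 2 with hr'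
  have hpow : 0 < (Q : ℝ) ^ (-(w + 1)) := Real.rpow_pos_of_pos hQpos _
  have hr'pos : 0 < r' := by positivity
  have hr'r : r' ≤ r / 2 := by rw [hr']; linarith
  -- the ordered fractions
  set e := S.orderEmbOfFin (rfl : S.card = N) with he
  set c : ℕ → ℝ := fun j => if h : j < N then ((e ⟨j, h⟩ : ℚ) : ℝ) else 0 with hc
  have hcj : ∀ j (h : j < N), c j = ((e ⟨j, h⟩ : ℚ) : ℝ) := fun j h => by simp only [hc, h, dif_pos]
  have hmem : ∀ j (h : j < N), e ⟨j, h⟩ ∈ S := fun j h => S.orderEmbOfFin_mem rfl ⟨j, h⟩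
  have hstep : ∀ k, k + 1 < N → c k + 1 / (Q : ℝ) ^ 2 ≤ c (k + 1) := by
    intro k hk
    have hk' : k < N := by omega
    rw [hcj k hk', hcj (k + 1) hk]
    have h1 := (mem_T (hmem k hk')).2.2
    have h2 := (mem_T (hmem (k + 1) hk)).2.2
    have h3 : e ⟨k, hk'⟩ < e ⟨k + 1, hk⟩ := e.strictMono (by simp)
    have := sep h1 h2 h3
    linarith
  have hlin := linear_sep hstep
  refine ⟨N, c, r', hN0, hr'pos, hr'r, ?_, ?_, ?_⟩
  · intro j hj
    obtain ⟨h1, h2, h3⟩ := mem_T (hmem j hj)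
    rw [← hcj j hj] at h1 h2
    constructor
    · intro u hu
      rw [mem_closedBall, Real.dist_eq] at hu ⊢
      rw [abs_le] at hu ⊢
      constructor <;> linarith
    · intro u hu
      rw [mem_closedBall, Real.dist_eq] at hu
      set y : ℚ := e ⟨j, hj⟩ with hy
      have hcy : c j = y.num / y.den := by rw [hcj j hj]; exact Rat.cast_def y
      have hd : (1 : ℝ) ≤ y.den := by exact_mod_cast y.den_pos
      have hd0 : (0 : ℝ) < y.den := by linarith
      have hdQ : (y.den : ℝ) ≤ Q := by exact_mod_cast h3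
      refine ⟨(y.num, (y.den : ℤ)), ?_, ?_, ?_⟩
      · have := y.den_pos
        simp only
        omega
      · simp only [Int.cast_natCast]
        have g1 : |(y.den : ℝ) * u - y.num| = y.den * |u - c j| := by
          rw [← abs_of_pos hd0, ← abs_mul, abs_of_pos hd0, hcy]
          congr 1
          field_simp
        rw [g1]
        have g2 : (y.den : ℝ) ^ w * (y.den * |u - c j|) = (y.den : ℝ) ^ (w + 1) * |u - c j| := by
          rw [Real.rpow_add hd0, Real.rpow_one]; ring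
        rw [g2]
        have g3 : (y.den : ℝ) ^ (w + 1) ≤ (Q : ℝ) ^ (w + 1) :=
          Real.rpow_le_rpow hd0.le hdQ hw1.le
        have g4 : (Q : ℝ) ^ (w + 1) * (Q : ℝ) ^ (-(w + 1)) = 1 := by
          rw [← Real.rpow_add hQpos]; simp
        have g5 : 0 < (Q : ℝ) ^ (w + 1) := Real.rpow_pos_of_pos hQpos _
        calc (y.den : ℝ) ^ (w + 1) * |u - c j| ≤ (Q : ℝ) ^ (w + 1) * r' := by gcongr
          _ = 1 / 2 := by rw [hr', ← mul_div_assoc, g4]
          _ < 1 := by norm_num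
      · simp only [Int.cast_natCast]
        rw [← hcy]
        exact hu
  · -- separation
    have key : ∀ i j, i < j → j < N → ∀ u ∈ closedBall (c i) r', ∀ v ∈ closedBall (c j) r',
        ((j : ℝ) - i) * (r / N / 64) ≤ dist u v := by
      intro i j hij hj u hu v hv
      have h1 := hlin i j hij.le hj
      have h2 : (1 : ℝ) ≤ (j : ℝ) - i := by
        have : (i : ℝ) + 1 ≤ j := by exact_mod_cast hij
        linarith
      rw [mem_closedBall, Real.dist_eq, abs_le] at hu hv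
      have h3 : c j - c i - 2 * r' ≤ dist u v := by
        rw [Real.dist_eq, abs_sub_comm]
        refine le_trans ?_ (le_abs_self _)
        linarith [hu.1, hu.2, hv.1, hv.2]
      have h4 : 2 * r' ≤ 1 / (Q : ℝ) ^ 2 / 2 := by
        have : (Q : ℝ) ^ (-(w + 1)) = (Q : ℝ) ^ (-(w - 1)) * (1 / (Q : ℝ) ^ 2) := by
          rw [show -(w + 1) = -(w - 1) + (-2 : ℝ) by ring, Real.rpow_add hQpos]
          congr 1
          rw [Real.rpow_neg hQpos.le, one_div]
          congr 1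
          exact_mod_cast Real.rpow_natCast (Q : ℝ) 2
        rw [hr', this]
        have : (0 : ℝ) < 1 / (Q : ℝ) ^ 2 := by positivity
        nlinarith
      have h5 : r / N / 64 ≤ 1 / (Q : ℝ) ^ 2 / 2 := by
        rw [div_div, div_div, div_le_div_iff₀ (by positivity) (by positivity)]
        nlinarith
      have h6 : (0 : ℝ) < 1 / (Q : ℝ) ^ 2 := by positivity
      calc ((j : ℝ) - i) * (r / N / 64) ≤ ((j : ℝ) - i) * (1 / (Q : ℝ) ^ 2 / 2) := by
            apply mul_le_mul_of_nonneg_left h5 (by linarith)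
        _ ≤ c j - c i - 2 * r' := by nlinarith
        _ ≤ dist u v := h3
    intro i hi j hj u hu v hv
    rcases lt_trichotomy i j with h | h | h
    · have := key i j h hj u hu v hv
      have h2 : (i : ℝ) < j := by exact_mod_cast h
      rw [abs_of_neg (by linarith), neg_sub]
      exact this
    · subst h
      simp
    · have := key j i h hi v hv u hu
      have h2 : (j : ℝ) < i := by exact_mod_cast h
      rw [abs_of_pos (by linarith), dist_comm]
      exact this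
  · -- mass
    have g1 : r' ^ s = (Q : ℝ) ^ (-(s * (w + 1))) / 2 ^ s := by
      rw [hr', Real.div_rpow hpow.le (by norm_num), ← Real.rpow_mul hQpos.le]
      congr 2
      ring
    have g2 : (Q : ℝ) ^ (2 - s * (w + 1)) = (Q : ℝ) ^ 2 * (Q : ℝ) ^ (-(s * (w + 1))) := by
      rw [sub_eq_add_neg, Real.rpow_add hQpos]
      congr 1
      exact_mod_cast Real.rpow_natCast (Q : ℝ) 2
    have g3 : 0 < (Q : ℝ) ^ (-(s * (w + 1))) := Real.rpow_pos_of_pos hQpos _
    have g4 : (0 : ℝ) < 2 ^ s := Real.rpow_pos_of_pos (by norm_num) _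
    rw [g1, div_le_div_iff₀ hNpos g4]
    rw [g2, div_le_iff₀ hr] at hQm
    calc m * 2 ^ s = (32 * m * 2 ^ s) / 32 := by ring
      _ ≤ ((Q : ℝ) ^ 2 * (Q : ℝ) ^ (-(s * (w + 1))) * r) / 32 := by gcongr
      _ = (Q : ℝ) ^ (-(s * (w + 1))) * (r * (Q : ℝ) ^ 2 / 32) := by ring
      _ ≤ (Q : ℝ) ^ (-(s * (w + 1))) * N := by gcongr

/-- Nodes of the scheme: a ball together with a half-open interval. -/
structure Node where
  /-- centre of the ball -/
  x : ℝ
  /-- radius of the ball -/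
  r : ℝ
  /-- left end point of the interval -/
  t : ℝ
  /-- length of the interval -/
  w : ℝ

/-- the closed ball of a node -/
def Node.ball (n : Node) : Set ℝ := closedBall n.x n.r

/-- the half-open interval of a node -/
def Node.ival (n : Node) : Set ℝ := Ico n.t (n.t + n.w)

/-- validity of a node -/
def Node.Valid (s : ℝ) (n : Node) : Prop :=
  0 < n.r ∧ 0 < n.w ∧ n.w ≤ n.r ^ s

lemma node_step {w s : ℝ} (hw1 : 1 < w) (hs1 : s * (w + 1) < 2)
    (n : Node) (hn : n.Valid s) :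
    ∃ ch : ℝ → Node, ∀ τ ∈ n.ival, (ch τ).Valid s ∧ (ch τ).ball ⊆ n.ball ∧
      (∀ u ∈ (ch τ).ball, App w (ch τ).r u) ∧
      (ch τ).r ≤ n.r / 2 ∧ τ ∈ (ch τ).ival ∧
      ∀ τ' ∈ n.ival, ch τ ≠ ch τ' → ∀ u ∈ (ch τ).ball, ∀ v ∈ (ch τ').ball,
        |τ - τ'| ≤ 128 * n.w / n.r * dist u v := by
  obtain ⟨hr, hw, hwr⟩ := hn
  obtain ⟨N, c, r', hN, hr', hr'2, hsub, hsep, hwN⟩ := split_step hw1 hs1 n.x hr n.w
  have hNpos : (0 : ℝ) < N := by exact_mod_cast hN
  set q : ℝ := n.w / N with hq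
  have hqpos : 0 < q := by positivity
  have hNq : (N : ℝ) * q = n.w := by rw [hq]; field_simp
  set idx : ℝ → ℕ := fun τ => ⌊(τ - n.t) / q⌋₊ with hidx
  have hidx1 : ∀ τ ∈ n.ival, (idx τ : ℝ) * q ≤ τ - n.t := by
    intro τ hτ
    have h1 : 0 ≤ (τ - n.t) / q := div_nonneg (sub_nonneg.2 hτ.1) hqpos.le
    have h2 := Nat.floor_le h1
    rwa [le_div_iff₀ hqpos] at h2
  have hidx2 : ∀ τ, τ - n.t < ((idx τ : ℝ) + 1) * q := by
    intro τ
    have h2 := Nat.lt_floor_add_one ((τ - n.t) / q)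
    rwa [div_lt_iff₀ hqpos] at h2
  have hidxN : ∀ τ ∈ n.ival, idx τ < N := by
    intro τ hτ
    have h1 := hidx1 τ hτ
    have h2 : τ < n.t + n.w := hτ.2
    have h3 : (idx τ : ℝ) * q < N * q := by linarith
    exact_mod_cast lt_of_mul_lt_mul_right h3 hqpos.le
  refine ⟨fun τ => ⟨c (idx τ), r', n.t + idx τ * q, q⟩, ?_⟩
  intro τ hτ
  refine ⟨⟨hr', hqpos, hwN⟩, (hsub _ (hidxN τ hτ)).1, (hsub _ (hidxN τ hτ)).2, hr'2,
    ⟨?_, ?_⟩, ?_⟩
  · have := hidx1 τ hτ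
    show n.t + idx τ * q ≤ τ
    linarith
  · have := hidx2 τ
    show τ < n.t + idx τ * q + q
    linarith
  · intro τ' hτ' hne u hu v hv
    have hij : idx τ ≠ idx τ' := by
      intro h; apply hne; simp only [h]
    have h1 := hsep _ (hidxN τ hτ) _ (hidxN τ' hτ') u hu v hv
    have h4 : (1 : ℝ) ≤ |(idx τ : ℝ) - idx τ'| := by
      have : (idx τ : ℤ) - idx τ' ≠ 0 := by
        intro h; apply hij; omega
      have h5 : (1 : ℤ) ≤ |(idx τ : ℤ) - idx τ'| := Int.one_le_abs this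
      exact_mod_cast h5
    have h5 : |τ - τ'| ≤ (|(idx τ : ℝ) - idx τ'| + 1) * q := by
      have a1 := hidx1 τ hτ
      have a2 := hidx2 τ
      have b1 := hidx1 τ' hτ'
      have b2 := hidx2 τ'
      have e1 := le_abs_self ((idx τ : ℝ) - idx τ')
      have e2 := neg_abs_le ((idx τ : ℝ) - idx τ')
      rw [abs_le]
      constructor <;> nlinarith
    have h6 : |τ - τ'| ≤ 2 * |(idx τ : ℝ) - idx τ'| * q := by nlinarith
    have h7 : q = 64 * n.w / n.r * (n.r / N / 64) := by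
      rw [hq]; field_simp
    calc |τ - τ'| ≤ 2 * |(idx τ : ℝ) - idx τ'| * q := h6
      _ = 128 * n.w / n.r * (|(idx τ : ℝ) - idx τ'| * (n.r / N / 64)) := by
          rw [h7]; ring
      _ ≤ 128 * n.w / n.r * dist u v := by gcongr

/-- the limit set -/
def E (w : ℝ) : Set ℝ := {x : ℝ | {pq : ℤ × ℤ | 1 ≤ pq.2 ∧
      (pq.2 : ℝ) ^ w * |pq.2 * x - pq.1| < 1}.Infinite}

lemma mem_E_of_App {w u : ℝ} (h : ∀ ε > 0, ∃ ρ ≤ ε, App w ρ u) : u ∈ E w := by
  show Set.Infinite _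
  intro hfin
  -- the error attains its minimum on the finite set
  obtain ⟨z0, hz01, hz02, -⟩ := (h 1 one_pos).choose_spec.2
  have hne : ({pq : ℤ × ℤ | 1 ≤ pq.2 ∧ (pq.2 : ℝ) ^ w * |pq.2 * u - pq.1| < 1}).Nonempty :=
    ⟨z0, hz01, hz02⟩
  obtain ⟨z, hz, hmin⟩ := hfin.exists_minimalFor (fun pq : ℤ × ℤ => |u - pq.1 / pq.2|) _ hne
  obtain ⟨hz1, hz2⟩ := hz
  have hzero : |u - z.1 / z.2| = 0 := by
    by_contra hne0
    have hpos : 0 < |u - (z.1 : ℝ) / z.2| := lt_of_le_of_ne (abs_nonneg _) (Ne.symm hne0)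
    obtain ⟨ρ, hρ, y, hy1, hy2, hy3⟩ := h (|u - (z.1 : ℝ) / z.2| / 2) (by positivity)
    have h1 : |u - (y.1 : ℝ) / y.2| ≤ |u - (z.1 : ℝ) / z.2| := by linarith
    have h2 := hmin ⟨hy1, hy2⟩ h1
    simp only at h2
    linarith
  have hu : u = z.1 / z.2 := by
    have := abs_eq_zero.1 hzero
    linarith
  have hz0 : (z.2 : ℝ) ≠ 0 := by
    have : z.2 ≠ 0 := by omega
    exact_mod_cast this
  apply Set.infinite_of_injective_forall_mem (f := fun k : ℕ => ((k + 1 : ℤ) * z.1, (k + 1 : ℤ) * z.2))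
    _ _ hfin
  · intro k k' hkk
    simp only [Prod.mk.injEq] at hkk
    have h2 := hkk.2
    have hz2' : z.2 ≠ 0 := by omega
    have := mul_right_cancel₀ hz2' h2
    omega
  · intro k
    refine ⟨?_, ?_⟩
    · simp only
      nlinarith [Int.natCast_nonneg k]
    · simp only
      rw [hu]
      push_cast
      have : ((k : ℝ) + 1) * z.2 * (z.1 / z.2) - (k + 1) * z.1 = 0 := by
        field_simp
        ring
      rw [this]
      simp

/-- The limit set of the scheme has Hausdorff dimension at least `s`. -/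
theorem le_dimH_E {w : ℝ} (hw1 : 1 < w) {s : ℝ≥0} (hs0 : 0 < s) (hs1 : (s : ℝ) * (w + 1) < 2) :
    (s : ℝ≥0∞) ≤ dimH (E w) := by
  have hsle : (s : ℝ) ≤ 1 := by
    have : (0 : ℝ) < s := by exact_mod_cast hs0
    nlinarith
  have : Nonempty Node := ⟨⟨0, 0, 0, 0⟩⟩
  have H : ∀ n : Node, n.Valid s → ∃ ch : ℝ → Node, ∀ τ ∈ n.ival,
      (ch τ).Valid s ∧ (ch τ).ball ⊆ n.ball ∧ (∀ u ∈ (ch τ).ball, App w (ch τ).r u) ∧
      (ch τ).r ≤ n.r / 2 ∧ τ ∈ (ch τ).ival ∧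
      ∀ τ' ∈ n.ival, ch τ ≠ ch τ' → ∀ u ∈ (ch τ).ball, ∀ v ∈ (ch τ').ball,
        |τ - τ'| ≤ 128 * n.w / n.r * dist u v := fun n hn => node_step hw1 hs1 n hn
  choose! ch hch using H
  set root : Node := ⟨0, 1, 0, 1⟩ with hroot
  have hrootv : root.Valid s := ⟨one_pos, one_pos, by simp [hroot]⟩
  set seq : ℝ → ℕ → Node := fun τ i => Nat.rec root (fun _ n => ch n τ) i with hseq
  have hseq0 : ∀ τ, seq τ 0 = root := fun τ => rfl
  have hseqs : ∀ τ i, seq τ (i + 1) = ch (seq τ i) τ := fun τ i => rfl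
  have hinv : ∀ τ ∈ root.ival, ∀ i, (seq τ i).Valid s ∧ τ ∈ (seq τ i).ival := by
    intro τ hτ i
    induction i with
    | zero => exact ⟨hrootv, hτ⟩
    | succ i ih =>
      rw [hseqs]
      obtain ⟨h1, _, _, _, h4, _⟩ := hch _ ih.1 τ ih.2
      exact ⟨h1, h4⟩
  have hstep : ∀ τ ∈ root.ival, ∀ i, (seq τ (i + 1)).ball ⊆ (seq τ i).ball ∧
      (∀ u ∈ (seq τ (i + 1)).ball, App w (seq τ (i + 1)).r u) ∧
      (seq τ (i + 1)).r ≤ (seq τ i).r / 2 := by
    intro τ hτ i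
    obtain ⟨h1, h2⟩ := hinv τ hτ i
    obtain ⟨_, h3, h3', h4, _⟩ := hch _ h1 τ h2
    rw [hseqs]
    exact ⟨h3, h3', h4⟩
  have hrad : ∀ τ ∈ root.ival, ∀ i, (seq τ i).r ≤ 1 / 2 ^ i := by
    intro τ hτ i
    induction i with
    | zero => simp [hseq0, hroot]
    | succ i ih =>
      calc (seq τ (i + 1)).r ≤ (seq τ i).r / 2 := (hstep τ hτ i).2.2
        _ ≤ (1 / 2 ^ i) / 2 := by linarith
        _ = 1 / 2 ^ (i + 1) := by rw [pow_succ]; field_simp
  have hmono : ∀ τ ∈ root.ival, ∀ i j, i ≤ j → (seq τ j).ball ⊆ (seq τ i).ball := by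
    intro τ hτ i j hij
    induction j, hij using Nat.le_induction with
    | base => exact Subset.rfl
    | succ j _ ih => exact (hstep τ hτ j).1.trans ih
  have hcentre : ∀ τ ∈ root.ival, ∀ i, (seq τ i).x ∈ (seq τ i).ball := fun τ hτ i =>
    mem_closedBall_self (hinv τ hτ i).1.1.le
  have hlim : ∀ τ ∈ root.ival, ∃ p, ∀ i, p ∈ (seq τ i).ball := by
    intro τ hτ
    have hc : CauchySeq (fun i => (seq τ i).x) := by
      apply cauchySeq_of_le_geometric_two (C := 2 * 1)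
      intro i
      have h1 : (seq τ (i + 1)).x ∈ (seq τ i).ball :=
        hmono τ hτ i (i + 1) (Nat.le_succ i) (hcentre τ hτ (i + 1))
      have h2 : dist (seq τ (i + 1)).x (seq τ i).x ≤ (seq τ i).r := h1
      rw [dist_comm]
      calc dist (seq τ (i + 1)).x (seq τ i).x ≤ (seq τ i).r := h2
        _ ≤ 1 / 2 ^ i := hrad τ hτ i
        _ = 2 * 1 / 2 / 2 ^ i := by ring
    obtain ⟨p, hp⟩ := cauchySeq_tendsto_of_complete hc
    refine ⟨p, fun i => ?_⟩
    apply isClosed_closedBall.mem_of_tendsto hp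
    filter_upwards [eventually_ge_atTop i] with j hj
    exact hmono τ hτ i j hj (hcentre τ hτ j)
  choose! ψ hψ using hlim
  -- the limit points lie in `E w`
  have hψE : ∀ τ ∈ root.ival, ψ τ ∈ E w := by
    intro τ hτ
    apply mem_E_of_App
    intro ε hε
    obtain ⟨i, hi⟩ : ∃ i : ℕ, (1 : ℝ) / 2 ^ (i + 1) < ε := by
      obtain ⟨i, hi⟩ := exists_pow_lt_of_lt_one hε (show (1 / 2 : ℝ) < 1 by norm_num)
      refine ⟨i, lt_of_le_of_lt ?_ hi⟩
      rw [one_div_pow, pow_succ]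
      apply one_div_le_one_div_of_le (by positivity)
      have : (0 : ℝ) < 2 ^ i := by positivity
      linarith
    exact ⟨(seq τ (i + 1)).r, ((hrad τ hτ (i + 1)).trans hi.le),
      (hstep τ hτ i).2.1 _ (hψ τ hτ (i + 1))⟩
  -- the expansion estimate
  have hexp : ∀ τ ∈ root.ival, ∀ τ' ∈ root.ival,
      |τ - τ'| ≤ 256 * dist (ψ τ) (ψ τ') ^ (s : ℝ) := by
    intro τ hτ τ' hτ'
    by_cases hall : ∀ i, seq τ i = seq τ' i
    · have hz : |τ - τ'| ≤ 0 := by
        have hb : ∀ i, |τ - τ'| ≤ (1 / 2 ^ i : ℝ) ^ (s : ℝ) := by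
          intro i
          obtain ⟨⟨hr, _, hwr⟩, ht1, ht2⟩ := hinv τ hτ i
          obtain ⟨_, ht1', ht2'⟩ := hinv τ' hτ' i
          rw [← hall i] at ht1' ht2'
          have h1 : |τ - τ'| ≤ (seq τ i).w := by
            rw [abs_le]; constructor <;> linarith
          exact h1.trans (hwr.trans (Real.rpow_le_rpow hr.le (hrad τ hτ i) s.coe_nonneg))
        have hlim : Tendsto (fun i : ℕ => (1 / 2 ^ i : ℝ) ^ (s : ℝ)) atTop (𝓝 0) := by
          have h1 : Tendsto (fun i : ℕ => 1 / (2 : ℝ) ^ i) atTop (𝓝 0) := by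
            apply Tendsto.div_atTop tendsto_const_nhds
            exact tendsto_pow_atTop_atTop_of_one_lt (by norm_num)
          have h2 : Tendsto (fun i : ℕ => (1 / 2 ^ i : ℝ) ^ (s : ℝ)) atTop (𝓝 (0 ^ (s : ℝ))) :=
            h1.rpow_const (Or.inr s.coe_nonneg)
          rwa [Real.zero_rpow (by exact_mod_cast hs0.ne')] at h2
        exact ge_of_tendsto' hlim hb
      exact hz.trans (by positivity)
    · push Not at hall
      classical
      have hfind := Nat.find_spec hall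
      set m := Nat.find hall with hm
      have hm0 : m ≠ 0 := by
        intro h
        rw [h] at hfind
        exact hfind rfl
      obtain ⟨k, hk⟩ := Nat.exists_eq_succ_of_ne_zero hm0
      have hkeq : seq τ k = seq τ' k := by
        by_contra hne
        have := Nat.find_min' hall hne
        omega
      rw [hk] at hfind
      have hfind' : ch (seq τ k) τ ≠ ch (seq τ k) τ' := by
        intro h
        apply hfind
        show ch (seq τ k) τ = ch (seq τ' k) τ'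
        rw [← hkeq]; exact h
      obtain ⟨hv, ht⟩ := hinv τ hτ k
      obtain ⟨hv', ht'⟩ := hinv τ' hτ' k
      rw [← hkeq] at hv' ht'
      obtain ⟨_, _, _, _, _, hsep⟩ := hch _ hv τ ht
      have hmem1 : ψ τ ∈ (ch (seq τ k) τ).ball := hψ τ hτ (k + 1)
      have hmem2 : ψ τ' ∈ (ch (seq τ k) τ').ball := by
        have := hψ τ' hτ' (k + 1)
        rw [hseqs, ← hkeq] at this
        exact this
      have h1 := hsep τ' ht' hfind' _ hmem1 _ hmem2
      set n := seq τ k with hn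
      obtain ⟨hr, hw, hwr⟩ := hv
      have hd1 : ψ τ ∈ n.ball := hψ τ hτ k
      have hd2 : ψ τ' ∈ n.ball := by
        have := hψ τ' hτ' k
        rwa [← hkeq] at this
      set d := dist (ψ τ) (ψ τ') with hd
      have hdr : d ≤ 2 * n.r := by
        calc d ≤ dist (ψ τ) n.x + dist n.x (ψ τ') := dist_triangle _ _ _
          _ ≤ n.r + n.r := add_le_add hd1 (by rw [dist_comm]; exact hd2)
          _ = 2 * n.r := by ring
      have hd0 : 0 ≤ d := dist_nonneg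
      rcases hd0.eq_or_lt with h0 | hdpos
      · rw [← h0] at h1 ⊢
        rw [Real.zero_rpow (by exact_mod_cast hs0.ne')]
        simpa using h1
      have h2 : d = d ^ (s : ℝ) * d ^ (1 - (s : ℝ)) := by
        rw [← Real.rpow_add hdpos]; simp
      have h3 : d ^ (1 - (s : ℝ)) ≤ 2 * n.r ^ (1 - (s : ℝ)) := by
        calc d ^ (1 - (s : ℝ)) ≤ (2 * n.r) ^ (1 - (s : ℝ)) :=
              Real.rpow_le_rpow hdpos.le hdr (by linarith)
          _ = 2 ^ (1 - (s : ℝ)) * n.r ^ (1 - (s : ℝ)) := Real.mul_rpow (by norm_num) hr.le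
          _ ≤ 2 ^ (1 : ℝ) * n.r ^ (1 - (s : ℝ)) := by
              apply mul_le_mul_of_nonneg_right _ (Real.rpow_nonneg hr.le _)
              apply Real.rpow_le_rpow_of_exponent_le (by norm_num)
              linarith [s.coe_nonneg]
          _ = 2 * n.r ^ (1 - (s : ℝ)) := by rw [Real.rpow_one]
      have h4 : n.r ^ (s : ℝ) * n.r ^ (1 - (s : ℝ)) = n.r := by
        rw [← Real.rpow_add hr]; simp
      have hds : 0 < d ^ (s : ℝ) := Real.rpow_pos_of_pos hdpos _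
      have hrs : 0 < n.r ^ (1 - (s : ℝ)) := Real.rpow_pos_of_pos hr _
      calc |τ - τ'| ≤ 128 * n.w / n.r * d := h1
        _ ≤ 128 * n.r ^ (s : ℝ) / n.r * d := by gcongr
        _ = 128 * n.r ^ (s : ℝ) / n.r * (d ^ (s : ℝ) * d ^ (1 - (s : ℝ))) := by rw [← h2]
        _ ≤ 128 * n.r ^ (s : ℝ) / n.r * (d ^ (s : ℝ) * (2 * n.r ^ (1 - (s : ℝ)))) := by
            gcongr
        _ = 256 * d ^ (s : ℝ) * ((n.r ^ (s : ℝ) * n.r ^ (1 - (s : ℝ))) / n.r) := by ring
        _ = 256 * d ^ (s : ℝ) := by rw [h4, div_self hr.ne', mul_one]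
  -- injectivity and the inverse
  have hinj : InjOn ψ root.ival := by
    intro τ hτ τ' hτ' heq
    have h1 := hexp τ hτ τ' hτ'
    rw [heq, dist_self, Real.zero_rpow (by exact_mod_cast hs0.ne'), mul_zero] at h1
    exact sub_eq_zero.1 (abs_nonpos_iff.1 h1)
  set g : ℝ → ℝ := invFunOn ψ root.ival with hg
  have hgψ : ∀ τ ∈ root.ival, g (ψ τ) = τ := fun τ hτ =>
    hinj (invFunOn_mem ⟨τ, hτ, rfl⟩) hτ (invFunOn_eq ⟨τ, hτ, rfl⟩)
  have hhol : HolderOnWith 256 s g (ψ '' root.ival) := by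
    rintro _ ⟨τ, hτ, rfl⟩ _ ⟨τ', hτ', rfl⟩
    rw [hgψ τ hτ, hgψ τ' hτ', edist_dist, edist_dist,
      ENNReal.ofReal_rpow_of_nonneg dist_nonneg s.coe_nonneg]
    have h1 := hexp τ hτ τ' hτ'
    rw [Real.dist_eq]
    calc ENNReal.ofReal |τ - τ'| ≤ ENNReal.ofReal (256 * dist (ψ τ) (ψ τ') ^ (s : ℝ)) :=
          ENNReal.ofReal_le_ofReal h1
      _ = ENNReal.ofReal 256 * ENNReal.ofReal (dist (ψ τ) (ψ τ') ^ (s : ℝ)) :=
          ENNReal.ofReal_mul (by norm_num)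
      _ = ((256 : ℝ≥0) : ℝ≥0∞) * ENNReal.ofReal (dist (ψ τ) (ψ τ') ^ (s : ℝ)) := by
          congr 1
          simp
  have hdim := hhol.dimH_image_le hs0
  have himg : g '' (ψ '' root.ival) = root.ival := by
    rw [← image_comp]
    ext τ
    constructor
    · rintro ⟨τ', hτ', rfl⟩
      simp only [comp_apply]
      rwa [hgψ τ' hτ']
    · intro hτ
      exact ⟨τ, hτ, hgψ τ hτ⟩
  rw [himg] at hdim
  have hival : dimH root.ival = 1 := by
    have : (interior root.ival).Nonempty := by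
      refine ⟨1 / 2, ?_⟩
      show (1 / 2 : ℝ) ∈ interior (Ico (0 : ℝ) (0 + 1))
      rw [interior_Ico]
      constructor <;> norm_num
    rw [Real.dimH_of_nonempty_interior this]
    simp
  rw [hival] at hdim
  have hs0' : (s : ℝ≥0∞) ≠ 0 := by exact_mod_cast hs0.ne'
  rw [ENNReal.le_div_iff_mul_le (Or.inl hs0') (Or.inl ENNReal.coe_ne_top), one_mul] at hdim
  refine hdim.trans (dimH_mono ?_)
  rintro _ ⟨τ, hτ, rfl⟩
  exact hψE τ hτ

end Pool.Agent.Helper53.MF.JB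

namespace Pool.Agent.Helper53.MF

/-- The lower bound in the theorem of Jarník and Besicovitch. -/
theorem jarnik_besicovitch (w : ℝ) (hw : 1 < w) :
    ENNReal.ofReal (2 / (w + 1)) ≤ dimH {x : ℝ | {pq : ℤ × ℤ | 1 ≤ pq.2 ∧
      (pq.2 : ℝ) ^ w * |pq.2 * x - pq.1| < 1}.Infinite} := by
  have hw1 : 0 < w + 1 := by linarith
  apply le_of_forall_lt
  intro c hc
  obtain ⟨s, hcs, hs⟩ := ENNReal.lt_iff_exists_nnreal_btwn.1 hc
  have hs0 : 0 < s := by
    have : (0 : ℝ≥0∞) < s := lt_of_le_of_lt (zero_le) hcs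
    exact_mod_cast this
  have hs1 : (s : ℝ) < 2 / (w + 1) := by
    have h1 : ENNReal.ofReal (s : ℝ) < ENNReal.ofReal (2 / (w + 1)) := by
      rwa [ENNReal.ofReal_coe_nnreal]
    exact (ENNReal.ofReal_lt_ofReal_iff (by positivity)).1 h1
  rw [lt_div_iff₀ hw1] at hs1
  exact lt_of_lt_of_le hcs (JB.le_dimH_E hw hs0 hs1)

end Pool.Agent.Helper53.MF
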