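import Pool.Agent.Helper52.MF.Defs

set_option autoImplicit false

namespace Pool.Agent.Helper52.MF

open Finset Polynomial

/-! ### Euler characteristic -/

section euler

variable {V : Type} [DecidableEq V]

lemma bd_bd (L : Finset (Finset V)) (hL : ∀ s ∈ L, ∀ t ⊆ s, t ∈ L) (k : ℕ)
    (c : Chain L (k + 2)) : bd L k (bd L (k + 1) c) = 0 := by
  ext t
  have h1 : bd L k (bd L (k + 1) c) t =
      ∑ w : {w : Finset V // w ∈ L ∧ w.card = k + 1 + 1},
        ∑ u : {u : Finset V // u ∈ L ∧ u.card = k + 1},
          if t.1 ⊆ u.1 ∧ u.1 ⊆ w.1 then c w else 0 := by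
    rw [Finset.sum_comm]
    simp only [bd, LinearMap.coe_mk, AddHom.coe_mk]
    refine Finset.sum_congr rfl fun u _ => ?_
    by_cases h : t.1 ⊆ u.1
    · simp [h]
    · simp [h]
  rw [h1]
  refine Finset.sum_eq_zero fun w _ => ?_
  rw [← Finset.sum_filter, Finset.sum_const]
  by_cases htw : t.1 ⊆ w.1
  · have hcard : (univ.filter (fun u : {u : Finset V // u ∈ L ∧ u.card = k + 1} =>
        t.1 ⊆ u.1 ∧ u.1 ⊆ w.1)).card = (Finset.Ioo t.1 w.1).card := by
      refine Finset.card_bij (fun u _ => u.1) ?_ ?_ ?_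
      · intro u hu
        simp only [mem_filter, mem_univ, true_and] at hu
        rw [Finset.mem_Ioo]
        refine ⟨lt_of_le_of_ne hu.1 ?_, lt_of_le_of_ne hu.2 ?_⟩
        · intro h
          have h2 := u.2.2
          rw [← h, t.2.2] at h2
          omega
        · intro h
          have h2 := u.2.2
          rw [h, w.2.2] at h2
          omega
      · intro u _ u' _ h
        exact Subtype.ext h
      · intro b hb
        rw [Finset.mem_Ioo] at hb
        have h1 := Finset.card_lt_card hb.1
        have h2 := Finset.card_lt_card hb.2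
        have h3 := t.2.2
        have h4 := w.2.2
        refine ⟨⟨b, hL _ w.2.1 _ hb.2.le, by omega⟩, ?_, rfl⟩
        simp only [mem_filter, mem_univ, true_and]
        exact ⟨hb.1.le, hb.2.le⟩
    rw [hcard, Finset.card_Ioo_finset htw, t.2.2, w.2.2]
    have : k + 1 + 1 - k = 2 := by omega
    rw [this]
    have h2 : (2 ^ 2 - 2 : ℕ) • c w = 0 := by
      have : (2 ^ 2 - 2 : ℕ) = 2 := by norm_num
      rw [this, two_nsmul]
      exact CharTwo.add_self_eq_zero _
    exact h2
  · have : (univ.filter (fun u : {u : Finset V // u ∈ L ∧ u.card = k + 1} =>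
        t.1 ⊆ u.1 ∧ u.1 ⊆ w.1)) = ∅ := by
      ext u
      simp only [mem_filter, mem_univ, true_and, notMem_empty, iff_false, not_and]
      intro h1 h2
      exact htw (h1.trans h2)
    rw [this]; simp

lemma range_le_cyc (L : Finset (Finset V)) (hL : ∀ s ∈ L, ∀ t ⊆ s, t ∈ L) (k : ℕ) :
    LinearMap.range (bd L k) ≤ cyc L k := by
  cases k with
  | zero => exact le_top
  | succ k =>
    rintro x ⟨c, rfl⟩
    exact bd_bd L hL k c

omit [DecidableEq V] in
lemma finrank_chain (L : Finset (Finset V)) (k : ℕ) :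
    Module.finrank (ZMod 2) (Chain L k) = (L.filter (fun t => t.card = k)).card := by
  rw [Module.finrank_fintype_fun_eq_card]
  exact Fintype.card_of_subtype (p := fun t => t ∈ L ∧ t.card = k)
    (L.filter (fun t => t.card = k)) (by simp)

lemma finrank_hom (L : Finset (Finset V)) (hL : ∀ s ∈ L, ∀ t ⊆ s, t ∈ L) (k : ℕ) :
    Module.finrank (ZMod 2) (RedHom L k) + Module.finrank (ZMod 2) (LinearMap.range (bd L k)) =
      Module.finrank (ZMod 2) (cyc L k) := by
  have h1 := Submodule.finrank_quotient_add_finrank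
    ((LinearMap.range (bd L k)).submoduleOf (cyc L k))
  have h2 : Module.finrank (ZMod 2) ((LinearMap.range (bd L k)).submoduleOf (cyc L k)) =
      Module.finrank (ZMod 2) (LinearMap.range (bd L k)) :=
    (Submodule.submoduleOfEquivOfLe (range_le_cyc L hL k)).finrank_eq
  rw [← h2]
  exact h1

lemma finrank_cyc_succ (L : Finset (Finset V)) (k : ℕ) :
    Module.finrank (ZMod 2) (LinearMap.range (bd L k)) +
      Module.finrank (ZMod 2) (cyc L (k + 1)) = (L.filter (fun t => t.card = k + 1)).card := by
  rw [← finrank_chain L (k + 1)]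
  exact LinearMap.finrank_range_add_finrank_ker (bd L k)

lemma finrank_cyc_zero (L : Finset (Finset V)) :
    Module.finrank (ZMod 2) (cyc L 0) = (L.filter (fun t => t.card = 0)).card := by
  rw [← finrank_chain L 0]
  exact finrank_top _ _

lemma euler_partial (L : Finset (Finset V)) (hL : ∀ s ∈ L, ∀ t ⊆ s, t ∈ L) (m : ℕ) :
    ∑ k ∈ Finset.range (m + 1), (-1 : ℤ) ^ k * ((L.filter (fun t => t.card = k)).card : ℤ) =
    ∑ k ∈ Finset.range (m + 1), (-1 : ℤ) ^ k * (Module.finrank (ZMod 2) (RedHom L k) : ℤ) +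
      (-1) ^ m * (Module.finrank (ZMod 2) (LinearMap.range (bd L m)) : ℤ) := by
  induction m with
  | zero =>
    have h1 := finrank_hom L hL 0
    rw [finrank_cyc_zero] at h1
    simp only [zero_add, Finset.range_one, Finset.sum_singleton, pow_zero, one_mul]
    exact_mod_cast h1.symm
  | succ m ih =>
    rw [Finset.sum_range_succ, ih, Finset.sum_range_succ _ (m + 1)]
    have h1 := finrank_hom L hL (m + 1)
    have h2 := finrank_cyc_succ L m
    have h3 : ((L.filter (fun t => t.card = m + 1)).card : ℤ) =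
        (Module.finrank (ZMod 2) (LinearMap.range (bd L m)) : ℤ) +
        ((Module.finrank (ZMod 2) (RedHom L (m + 1)) : ℤ) +
        (Module.finrank (ZMod 2) (LinearMap.range (bd L (m + 1))) : ℤ)) := by
      rw [← h2, ← h1]; push_cast; ring
    rw [h3]
    ring

lemma euler (L : Finset (Finset V)) (hL : ∀ s ∈ L, ∀ t ⊆ s, t ∈ L) (e : ℕ)
    (hH : ∀ k, Module.finrank (ZMod 2) (RedHom L k) = if k = e then 1 else 0) :
    ∑ t ∈ L, (-1 : ℤ) ^ t.card = (-1) ^ e := by
  obtain ⟨m, hm1, hm2⟩ : ∃ m, e ≤ m ∧ ∀ t ∈ L, t.card ≤ m := by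
    refine ⟨max e (L.sup Finset.card), le_max_left _ _, fun t ht => ?_⟩
    exact le_trans (Finset.le_sup (f := Finset.card) ht) (le_max_right _ _)
  have h1 := euler_partial L hL m
  have h2 : Module.finrank (ZMod 2) (LinearMap.range (bd L m)) = 0 := by
    have h3 := finrank_cyc_succ L m
    have h4 : (L.filter (fun t => t.card = m + 1)).card = 0 := by
      rw [Finset.card_eq_zero, Finset.filter_eq_empty_iff]
      intro t ht h
      have := hm2 t ht
      omega
    omega
  rw [h2] at h1
  have h5 : ∑ t ∈ L, (-1 : ℤ) ^ t.card =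
      ∑ k ∈ Finset.range (m + 1), (-1 : ℤ) ^ k * ((L.filter (fun t => t.card = k)).card : ℤ) := by
    rw [← Finset.sum_fiberwise_of_maps_to (s := L) (t := Finset.range (m + 1))
      (g := fun t => t.card) (fun t ht => by
        rw [Finset.mem_range]; exact Nat.lt_succ_of_le (hm2 t ht))]
    refine Finset.sum_congr rfl fun k _ => ?_
    rw [Finset.sum_congr rfl (g := fun _ => (-1 : ℤ) ^ k)]
    · rw [Finset.sum_const, nsmul_eq_mul, mul_comm]
    · intro t ht
      rw [(Finset.mem_filter.mp ht).2]
  rw [h5, h1]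
  have h6 : ∑ k ∈ Finset.range (m + 1), (-1 : ℤ) ^ k *
      (Module.finrank (ZMod 2) (RedHom L k) : ℤ) = (-1) ^ e := by
    rw [Finset.sum_eq_single e]
    · rw [hH]; simp
    · intro k _ hk
      rw [hH, if_neg hk]; simp
    · intro h
      exact absurd (Finset.mem_range.mpr (by omega)) h
  rw [h6]; simp

end euler

/-! ### Dehn-Sommerville -/

section ds

variable {V : Type} [DecidableEq V]

lemma link_down (D : Cpx V) (s : Finset V) : ∀ u ∈ link D s, ∀ t ⊆ u, t ∈ link D s := by
  intro u hu t ht
  simp only [link, mem_filter] at hu ⊢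
  exact ⟨D.down _ hu.1 _ ht, Finset.disjoint_of_subset_left ht hu.2.1,
    D.down _ hu.2.2 _ (Finset.union_subset_union ht (Finset.Subset.refl _))⟩

/-- the face polynomial -/
noncomputable def fpoly (D : Cpx V) : ℤ[X] := ∑ s ∈ D.faces, X ^ s.card

lemma eval_fpoly (D : Cpx V) (x : ℤ) : (fpoly D).eval x = ∑ s ∈ D.faces, x ^ s.card := by
  simp [fpoly, Polynomial.eval_finsetSum]

lemma coeff_fpoly (D : Cpx V) (k : ℕ) : (fpoly D).coeff k = fnum D k := by
  simp only [fpoly, Polynomial.finsetSum_coeff, Polynomial.coeff_X_pow, fnum]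
  rw [Finset.sum_boole]
  congr 2
  ext s
  simp only [mem_filter]
  constructor
  · rintro ⟨h1, h2⟩; exact ⟨h1, h2.symm⟩
  · rintro ⟨h1, h2⟩; exact ⟨h1, h2.symm⟩

lemma ds_of_euler (D : Cpx V) (d : ℕ) (hd : ∀ s ∈ D.faces, s.card ≤ d)
    (hE : ∀ s ∈ D.faces, ∑ t ∈ link D s, (-1 : ℤ) ^ t.card = (-1) ^ (d - s.card)) (x : ℤ) :
    (fpoly D).eval (x - 1) = (-1) ^ d * (fpoly D).eval (-x) := by
  rw [eval_fpoly, eval_fpoly]
  have h1 : ∀ s : Finset V, (x - 1) ^ s.card =
      ∑ t ∈ s.powerset, x ^ t.card * (-1 : ℤ) ^ (s.card - t.card) := by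
    intro s
    rw [Finset.sum_pow_mul_eq_add_pow]
    ring
  calc ∑ s ∈ D.faces, (x - 1) ^ s.card
      = ∑ s ∈ D.faces, ∑ t ∈ s.powerset, x ^ t.card * (-1 : ℤ) ^ (s.card - t.card) :=
        Finset.sum_congr rfl fun s _ => h1 s
    _ = ∑ t ∈ D.faces, ∑ s ∈ D.faces.filter (fun s => t ⊆ s),
          x ^ t.card * (-1 : ℤ) ^ (s.card - t.card) := by
        refine Finset.sum_comm' ?_
        intro s t
        simp only [mem_powerset, mem_filter]
        constructor
        · rintro ⟨hs, ht⟩; exact ⟨⟨hs, ht⟩, D.down s hs t ht⟩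
        · rintro ⟨⟨hs, ht⟩, _⟩; exact ⟨hs, ht⟩
    _ = ∑ t ∈ D.faces, x ^ t.card * (-1 : ℤ) ^ (d - t.card) := by
        refine Finset.sum_congr rfl fun t ht => ?_
        rw [← Finset.mul_sum]
        congr 1
        rw [← hE t ht]
        refine Finset.sum_bij' (fun s _ => s \ t) (fun u _ => u ∪ t) ?_ ?_ ?_ ?_ ?_
        · intro s hs
          simp only [mem_filter] at hs
          simp only [link, mem_filter]
          refine ⟨D.down s hs.1 _ Finset.sdiff_subset, Finset.sdiff_disjoint, ?_⟩
          rw [Finset.sdiff_union_of_subset hs.2]; exact hs.1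
        · intro u hu
          simp only [link, mem_filter] at hu
          simp only [mem_filter]
          exact ⟨hu.2.2, Finset.subset_union_right⟩
        · intro s hs
          simp only [mem_filter] at hs
          exact Finset.sdiff_union_of_subset hs.2
        · intro u hu
          simp only [link, mem_filter] at hu
          exact Finset.union_sdiff_cancel_right hu.2.1
        · intro s hs
          simp only [mem_filter] at hs
          rw [Finset.card_sdiff_of_subset hs.2]
    _ = (-1) ^ d * ∑ s ∈ D.faces, (-x) ^ s.card := by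
        rw [Finset.mul_sum]
        refine Finset.sum_congr rfl fun t ht => ?_
        have h2 := hd t ht
        have h3 : (-1 : ℤ) ^ d = (-1) ^ (d - t.card) * (-1) ^ t.card := by
          rw [← pow_add]; congr 1; omega
        have h4 : (-x) ^ t.card = (-1) ^ t.card * x ^ t.card := by
          rw [← mul_pow]; ring
        have h5 : (-1 : ℤ) ^ t.card * (-1) ^ t.card = 1 := by
          rw [← mul_pow]; simp
        rw [h3, h4]
        calc x ^ t.card * (-1) ^ (d - t.card) =
            x ^ t.card * (-1) ^ (d - t.card) * ((-1 : ℤ) ^ t.card * (-1) ^ t.card) := by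
              rw [h5]; ring
          _ = _ := by ring

lemma ds_sphere (D : Cpx V) (d : ℕ) (h : IsSphere D d) (x : ℤ) :
    (fpoly D).eval (x - 1) = (-1) ^ d * (fpoly D).eval (-x) := by
  refine ds_of_euler D d h.2.1 (fun s hs => ?_) x
  exact euler _ (link_down D s) _ (h.2.2 s hs)

/-- equal `f`-numbers in the lower half and the symmetry imply equality -/
lemma fpoly_eq {W : Type} [DecidableEq W] (D : Cpx V) (E : Cpx W) (d : ℕ)
    (hD : ∀ s ∈ D.faces, s.card ≤ d) (hE : ∀ s ∈ E.faces, s.card ≤ d)
    (h1 : ∀ x : ℤ, (fpoly D).eval (x - 1) = (-1) ^ d * (fpoly D).eval (-x))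
    (h2 : ∀ x : ℤ, (fpoly E).eval (x - 1) = (-1) ^ d * (fpoly E).eval (-x))
    (h3 : ∀ k, k ≤ d / 2 → fnum D k = fnum E k) : fpoly D = fpoly E := by
  set P : ℤ[X] := fpoly D - fpoly E with hP
  have e1 : P.comp (X - 1) = C ((-1) ^ d) * P.comp (-X) := by
    apply Polynomial.funext
    intro x
    simp only [hP, Polynomial.sub_comp, Polynomial.eval_sub, Polynomial.eval_comp,
      Polynomial.eval_X, Polynomial.eval_one, Polynomial.eval_mul, Polynomial.eval_C,
      Polynomial.eval_neg]
    rw [h1, h2]; ring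
  have e2 : (X : ℤ[X]) ^ (d / 2 + 1) ∣ P := by
    rw [Polynomial.X_pow_dvd_iff]
    intro k hk
    rw [hP, Polynomial.coeff_sub, coeff_fpoly, coeff_fpoly, h3 k (by omega)]
    simp
  have e3 : (X + 1 : ℤ[X]) ^ (d / 2 + 1) ∣ P := by
    obtain ⟨Q, hQ⟩ := e2
    have e4 : P = (P.comp (X - 1)).comp (X + 1) := by
      rw [Polynomial.comp_assoc]; simp
    rw [e1, hQ] at e4
    rw [hQ, e4]
    simp only [Polynomial.mul_comp, Polynomial.pow_comp, Polynomial.X_comp,
      Polynomial.neg_comp, Polynomial.C_comp, Polynomial.comp_assoc]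
    have e5 : (-(X + 1) : ℤ[X]) ^ (d / 2 + 1) = (-1) ^ (d / 2 + 1) * (X + 1) ^ (d / 2 + 1) := by
      rw [← mul_pow]; ring
    rw [e5]
    exact ⟨C ((-1) ^ d) * ((-1) ^ (d / 2 + 1) * Q.comp (-(X + 1))), by ring⟩
  have e6 : IsCoprime ((X : ℤ[X]) ^ (d / 2 + 1)) ((X + 1 : ℤ[X]) ^ (d / 2 + 1)) := by
    refine IsCoprime.pow ⟨-1, 1, by ring⟩
  have e7 := e6.mul_dvd e2 e3
  have hm : (X + 1 : ℤ[X]).Monic := by simpa using Polynomial.monic_X_add_C (1 : ℤ)
  have e8 : (((X : ℤ[X]) ^ (d / 2 + 1)) * (X + 1 : ℤ[X]) ^ (d / 2 + 1)).Monic :=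
    (Polynomial.monic_X_pow _).mul (hm.pow _)
  have e9 : (((X : ℤ[X]) ^ (d / 2 + 1)) * (X + 1 : ℤ[X]) ^ (d / 2 + 1)).natDegree =
      2 * (d / 2 + 1) := by
    rw [Polynomial.Monic.natDegree_mul (Polynomial.monic_X_pow _) (hm.pow _)]
    rw [Polynomial.natDegree_X_pow, hm.natDegree_pow]
    have : (X + 1 : ℤ[X]).natDegree = 1 := Polynomial.natDegree_X_add_C (1 : ℤ)
    rw [this]; ring
  have e10 : P.natDegree ≤ d := by
    rw [Polynomial.natDegree_le_iff_coeff_eq_zero]
    intro k hk
    have a1 : fnum D k = 0 := by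
      rw [fnum, Finset.card_eq_zero, Finset.filter_eq_empty_iff]
      intro s hs h
      have := hD s hs
      omega
    have a2 : fnum E k = 0 := by
      rw [fnum, Finset.card_eq_zero, Finset.filter_eq_empty_iff]
      intro s hs h
      have := hE s hs
      omega
    rw [hP, Polynomial.coeff_sub, coeff_fpoly, coeff_fpoly, a1, a2]
    simp
  have e11 : P = 0 := by
    by_contra hne
    obtain ⟨Q, hQ⟩ := e7
    have hQ0 : Q ≠ 0 := by
      rintro rfl
      exact hne (by rw [hQ, mul_zero])
    have : P.natDegree = 2 * (d / 2 + 1) + Q.natDegree := by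
      rw [hQ, Polynomial.natDegree_mul e8.ne_zero hQ0, e9]
    omega
  exact sub_eq_zero.mp e11

lemma fnum_eq_of_gnum_eq {W : Type} [DecidableEq W] (D : Cpx V) (E : Cpx W) (d : ℕ)
    (hg : ∀ j, j ≤ d / 2 → gnum D d j = gnum E d j) :
    ∀ k, k ≤ d / 2 → fnum D k = fnum E k := by
  have hf0 : ∀ {U : Type} [DecidableEq U] (F : Cpx U), fnum F 0 = 1 := by
    intro U _ F
    rw [fnum, Finset.card_eq_one]
    refine ⟨∅, ?_⟩
    ext s
    simp only [mem_filter, Finset.card_eq_zero, mem_singleton]
    constructor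
    · rintro ⟨_, h⟩; exact h
    · rintro rfl; exact ⟨F.empty_mem, rfl⟩
  have hh : ∀ j, j ≤ d / 2 → hnum D d j = hnum E d j := by
    intro j
    induction j with
    | zero => intro _; simp [hnum, hf0]
    | succ j ih =>
      intro hj
      have h1 := hg (j + 1) hj
      have h2 := ih (by omega)
      simp only [gnum, Nat.succ_ne_zero, if_false, Nat.add_sub_cancel] at h1
      linarith
  intro k
  induction k using Nat.strong_induction_on with
  | _ k ih =>
    intro hk
    have h1 := hh k hk
    rw [hnum, hnum, Finset.sum_range_succ, Finset.sum_range_succ] at h1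
    have h2 : ∑ x ∈ Finset.range k, (-1 : ℤ) ^ (k - x) * ((d - x).choose (d - k) : ℤ) *
        (fnum D x : ℤ) = ∑ x ∈ Finset.range k, (-1 : ℤ) ^ (k - x) *
        ((d - x).choose (d - k) : ℤ) * (fnum E x : ℤ) := by
      refine Finset.sum_congr rfl fun x hx => ?_
      rw [Finset.mem_range] at hx
      rw [ih x hx (by omega)]
    rw [h2] at h1
    simp only [Nat.sub_self, pow_zero, Nat.choose_self, Nat.cast_one, one_mul] at h1
    have h3 := add_left_cancel h1
    exact_mod_cast h3

end ds

/-! ### The complex `K` -/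

section kk

lemma mem_bdSimplex (n : ℕ) (hn : 1 ≤ n) (s : Finset (Fin (n + 1))) :
    s ∈ (bdSimplex n hn).faces ↔ s ≠ univ := by
  simp [bdSimplex]

lemma mem_K (q i r : ℕ) (hi : 1 ≤ i) (hr : 1 ≤ r)
    (s : Finset (Σ j : Fin (q + 1), Fin (blk q i r j + 1))) :
    s ∈ (K q i r hi hr).faces ↔ ∀ j, ∃ x, (⟨j, x⟩ : Σ j : Fin (q + 1), Fin (blk q i r j + 1)) ∉ s := by
  simp only [K, join, mem_filter, mem_univ, true_and, mem_bdSimplex]
  refine forall_congr' fun j => ?_
  rw [Ne, Finset.eq_univ_iff_forall]
  simp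

lemma sum_blk (q i r : ℕ) : ∑ j : Fin (q + 1), blk q i r j = q * i + r := by
  rw [Fin.sum_univ_castSucc]
  simp [blk]

lemma card_VK (q i r : ℕ) :
    Fintype.card (Σ j : Fin (q + 1), Fin (blk q i r j + 1)) = q * i + r + q + 1 := by
  rw [Fintype.card_sigma]
  simp only [Fintype.card_fin]
  rw [Finset.sum_add_distrib, sum_blk]
  simp
  ring

/-- section of a set -/
def sec {q i r : ℕ} (s : Finset (Σ j : Fin (q + 1), Fin (blk q i r j + 1))) (j : Fin (q + 1)) :
    Finset (Fin (blk q i r j + 1)) := univ.filter (fun x => (⟨j, x⟩ : Σ j, Fin (blk q i r j + 1)) ∈ s)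

lemma sec_eq {q i r : ℕ} (s : Finset (Σ j : Fin (q + 1), Fin (blk q i r j + 1))) :
    s = Finset.univ.sigma (fun j => sec s j) := by
  ext ⟨j, x⟩
  simp [sec]

lemma card_sec {q i r : ℕ} (s : Finset (Σ j : Fin (q + 1), Fin (blk q i r j + 1))) :
    s.card = ∑ j, (sec s j).card := by
  conv_lhs => rw [sec_eq s]
  rw [Finset.card_sigma]

lemma eval_K (q i r : ℕ) (hi : 1 ≤ i) (hr : 1 ≤ r) (y : ℤ) :
    (fpoly (K q i r hi hr)).eval y =
      ∏ j : Fin (q + 1), ((y + 1) ^ (blk q i r j + 1) - y ^ (blk q i r j + 1)) := by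
  rw [eval_fpoly]
  have h1 : ∀ n : ℕ, ∑ s ∈ (univ.filter (fun s : Finset (Fin (n + 1)) => s ≠ univ)), y ^ s.card =
      (y + 1) ^ (n + 1) - y ^ (n + 1) := by
    intro n
    have h2 : ∑ s : Finset (Fin (n + 1)), y ^ s.card = (y + 1) ^ (n + 1) := by
      have := Finset.sum_pow_mul_eq_add_pow y 1 (univ : Finset (Fin (n + 1)))
      simp only [one_pow, mul_one, Finset.card_univ, Fintype.card_fin, Finset.powerset_univ] at this
      exact this
    rw [← h2, Finset.filter_ne', ← Finset.add_sum_erase univ _ (Finset.mem_univ univ)]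
    simp
  have h3 : ∀ j : Fin (q + 1), (y + 1) ^ (blk q i r j + 1) - y ^ (blk q i r j + 1) =
      ∑ s ∈ (univ.filter (fun s : Finset (Fin (blk q i r j + 1)) => s ≠ univ)), y ^ s.card :=
    fun j => (h1 _).symm
  simp_rw [h3]
  rw [Finset.prod_univ_sum]
  refine Finset.sum_bij' (fun s _ => fun j => sec s j) (fun p _ => Finset.univ.sigma p)
    ?_ ?_ ?_ ?_ ?_
  · intro s hs
    rw [mem_K] at hs
    rw [Fintype.mem_piFinset]
    intro j
    simp only [mem_filter, mem_univ, true_and]
    obtain ⟨x, hx⟩ := hs j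
    intro h
    have : x ∈ sec s j := h ▸ mem_univ x
    simp only [sec, mem_filter, mem_univ, true_and] at this
    exact hx this
  · intro p hp
    rw [Fintype.mem_piFinset] at hp
    rw [mem_K]
    intro j
    have := hp j
    simp only [mem_filter, mem_univ, true_and, Ne, Finset.eq_univ_iff_forall, not_forall] at this
    obtain ⟨x, hx⟩ := this
    refine ⟨x, ?_⟩
    simpa using hx
  · intro s _
    exact (sec_eq s).symm
  · intro p _
    ext j x
    simp [sec]
  · intro s _
    rw [card_sec s, Finset.prod_pow_eq_pow_sum]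

lemma ds_K (q i r : ℕ) (hi : 1 ≤ i) (hr : 1 ≤ r) (x : ℤ) :
    (fpoly (K q i r hi hr)).eval (x - 1) =
      (-1) ^ (q * i + r) * (fpoly (K q i r hi hr)).eval (-x) := by
  rw [eval_K, eval_K, ← sum_blk, ← Finset.prod_pow_eq_pow_sum, ← Finset.prod_mul_distrib]
  refine Finset.prod_congr rfl fun j _ => ?_
  set n := blk q i r j
  have h1 : (-x + 1) ^ (n + 1) = (-1) ^ (n + 1) * (x - 1) ^ (n + 1) := by
    rw [← mul_pow]; ring
  have h2 : (-x) ^ (n + 1) = (-1) ^ (n + 1) * x ^ (n + 1) := by
    rw [← mul_pow]; ring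
  rw [h1, h2]
  have h3 : (-1 : ℤ) ^ n * (-1) ^ (n + 1) = -1 := by
    rw [← pow_add]
    exact Odd.neg_one_pow ⟨n, by ring⟩
  have h4 : (-1 : ℤ) ^ n * ((-1) ^ (n + 1) * (x - 1) ^ (n + 1) - (-1) ^ (n + 1) * x ^ (n + 1)) =
      ((-1 : ℤ) ^ n * (-1) ^ (n + 1)) * ((x - 1) ^ (n + 1) - x ^ (n + 1)) := by ring
  rw [h4, h3]
  ring

lemma card_le_K (q i r : ℕ) (hi : 1 ≤ i) (hr : 1 ≤ r) :
    ∀ s ∈ (K q i r hi hr).faces, s.card ≤ q * i + r := by
  intro s hs
  rw [card_sec s, ← sum_blk]
  refine Finset.sum_le_sum fun j _ => ?_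
  rw [mem_K] at hs
  obtain ⟨x, hx⟩ := hs j
  have h1 : (sec s j).card < (univ : Finset (Fin (blk q i r j + 1))).card := by
    refine Finset.card_lt_card ⟨Finset.subset_univ _, fun h => ?_⟩
    have := h (mem_univ x)
    simp only [sec, mem_filter, mem_univ, true_and] at this
    exact hx this
  rw [Finset.card_univ, Fintype.card_fin] at h1
  omega

/-- a block of `K` -/
def block (q i r : ℕ) (j : Fin (q + 1)) : Finset (Σ j : Fin (q + 1), Fin (blk q i r j + 1)) :=
  univ.map (Function.Embedding.sigmaMk j)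

lemma mem_block (q i r : ℕ) (j : Fin (q + 1)) (p : Σ j : Fin (q + 1), Fin (blk q i r j + 1)) :
    p ∈ block q i r j ↔ p.1 = j := by
  simp only [block, Finset.mem_map, mem_univ, true_and, Function.Embedding.sigmaMk_apply]
  constructor
  · rintro ⟨x, rfl⟩; rfl
  · rintro rfl; exact ⟨p.2, rfl⟩

lemma card_block (q i r : ℕ) (j : Fin (q + 1)) : (block q i r j).card = blk q i r j + 1 := by
  simp [block]

lemma not_mem_K (q i r : ℕ) (hi : 1 ≤ i) (hr : 1 ≤ r)
    (s : Finset (Σ j : Fin (q + 1), Fin (blk q i r j + 1))) :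
    s ∉ (K q i r hi hr).faces ↔ ∃ j, block q i r j ⊆ s := by
  rw [mem_K]
  push Not
  refine exists_congr fun j => ?_
  constructor
  · rintro h ⟨j', x⟩ hp
    rw [mem_block] at hp
    simp only at hp
    subst hp
    exact h x
  · intro h x
    exact h ((mem_block q i r j _).mpr rfl)

end kk

/-! ### Counting missing faces -/

section missing

variable {V : Type} [DecidableEq V]

lemma exists_missing (D : Cpx V) : ∀ s : Finset V, s ∉ D.faces → ∃ t ⊆ s, IsMissing D t := by
  intro s
  induction s using Finset.strongInduction with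
  | H s ih =>
    intro hs
    by_cases h : ∀ t, t ⊂ s → t ∈ D.faces
    · exact ⟨s, Finset.Subset.refl _, hs, h⟩
    · push Not at h
      obtain ⟨t, hts, ht⟩ := h
      obtain ⟨u, hu, hm⟩ := ih t hts ht
      exact ⟨u, hu.trans hts.1, hm⟩

lemma missing_nonempty (D : Cpx V) (t : Finset V) (h : IsMissing D t) : t.Nonempty := by
  rw [Finset.nonempty_iff_ne_empty]
  rintro rfl
  exact h.1 D.empty_mem

variable [Fintype V]

lemma fnum_one (D : Cpx V) : fnum D 1 = Fintype.card V := by
  rw [fnum, ← Finset.card_univ]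
  symm
  refine Finset.card_bij (fun v _ => {v}) ?_ ?_ ?_
  · intro v _
    simp [D.vert v]
  · intro v _ w _ h
    exact Finset.singleton_injective h
  · intro s hs
    simp only [mem_filter] at hs
    obtain ⟨v, rfl⟩ := Finset.card_eq_one.mp hs.2
    exact ⟨v, mem_univ _, rfl⟩

/-- nonfaces with `k` elements -/
def nonf (D : Cpx V) (k : ℕ) : Finset (Finset V) :=
  (Finset.powersetCard k univ).filter (fun s => s ∉ D.faces)

lemma mem_nonf (D : Cpx V) (k : ℕ) (s : Finset V) : s ∈ nonf D k ↔ s.card = k ∧ s ∉ D.faces := by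
  simp [nonf, Finset.mem_powersetCard]

lemma card_nonf (D : Cpx V) (k : ℕ) : (nonf D k).card + fnum D k = (Fintype.card V).choose k := by
  have h1 := Finset.card_filter_add_card_filter_not (s := Finset.powersetCard k (univ : Finset V))
    (fun s => s ∉ D.faces)
  rw [Finset.card_powersetCard, Finset.card_univ] at h1
  rw [← h1]
  congr 1
  rw [fnum]
  congr 1
  ext s
  simp only [mem_filter, Finset.mem_powersetCard, not_not]
  constructor
  · rintro ⟨h1, h2⟩; exact ⟨⟨Finset.subset_univ _, h2⟩, h1⟩
  · rintro ⟨⟨_, h2⟩, h1⟩; exact ⟨h1, h2⟩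

lemma card_superset (t : Finset V) (k : ℕ) (hk : t.card ≤ k) :
    ((Finset.powersetCard k (univ : Finset V)).filter (fun s => t ⊆ s)).card =
      (Fintype.card V - t.card).choose (k - t.card) := by
  rw [← Finset.card_univ, ← Finset.card_sdiff_of_subset (Finset.subset_univ t),
    ← Finset.card_powersetCard]
  refine Finset.card_bij' (fun s _ => s \ t) (fun u _ => u ∪ t) ?_ ?_ ?_ ?_
  · intro s hs
    simp only [mem_filter, Finset.mem_powersetCard] at hs ⊢
    refine ⟨Finset.sdiff_subset_sdiff (Finset.subset_univ _) (Finset.Subset.refl _), ?_⟩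
    rw [Finset.card_sdiff_of_subset hs.2, hs.1.2]
  · intro u hu
    simp only [mem_filter, Finset.mem_powersetCard] at hu ⊢
    refine ⟨⟨Finset.subset_univ _, ?_⟩, Finset.subset_union_right⟩
    have hd : Disjoint u t := by
      rw [Finset.disjoint_left]
      intro x hx
      exact (Finset.mem_sdiff.mp (hu.1 hx)).2
    rw [Finset.card_union_of_disjoint hd, hu.2]
    omega
  · intro s hs
    simp only [mem_filter] at hs
    exact Finset.sdiff_union_of_subset hs.2
  · intro u hu
    simp only [Finset.mem_powersetCard] at hu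
    have hd : Disjoint u t := by
      rw [Finset.disjoint_left]
      intro x hx
      exact (Finset.mem_sdiff.mp (hu.1 hx)).2
    exact Finset.union_sdiff_cancel_right hd

/-- number of nonfaces not containing a given nonface -/
lemma card_nonf_not (D : Cpx V) (t : Finset V) (ht : t ∉ D.faces) (k : ℕ) (hk : t.card ≤ k) :
    ((nonf D k).filter (fun s => ¬ t ⊆ s)).card +
      (Fintype.card V - t.card).choose (k - t.card) = (nonf D k).card := by
  rw [← card_superset t k hk, add_comm]
  have h1 := Finset.card_filter_add_card_filter_not (s := nonf D k) (fun s => t ⊆ s)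
  rw [← h1]
  congr 2
  ext s
  simp only [mem_filter, mem_nonf, Finset.mem_powersetCard, Finset.subset_univ, true_and]
  constructor
  · rintro ⟨h1, h2⟩
    exact ⟨⟨h1, fun h => ht (D.down s h t h2)⟩, h2⟩
  · rintro ⟨⟨h1, _⟩, h2⟩
    exact ⟨h1, h2⟩

/-- transversal argument -/
lemma transversal (D : Cpx V) (d q : ℕ) (hd : ∀ s ∈ D.faces, s.card ≤ d)
    (hn : d + q + 1 ≤ Fintype.card V) (M : Finset (Finset V)) (hM : ∀ t, t ∈ M ↔ IsMissing D t)
    (hMc : M.card ≤ q + 1) (c : Finset V → V) (hc : ∀ t ∈ M, c t ∈ t) :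
    M.card = q + 1 ∧ Set.InjOn c (M : Set (Finset V)) := by
  have h1 : (univ \ M.image c) ∈ D.faces := by
    by_contra h
    obtain ⟨t, hts, ht⟩ := exists_missing D _ h
    have h2 := (hM t).mpr ht
    have h3 := hts (hc t h2)
    rw [Finset.mem_sdiff] at h3
    exact h3.2 (Finset.mem_image_of_mem c h2)
  have h2 := hd _ h1
  rw [Finset.card_sdiff_of_subset (Finset.subset_univ _), Finset.card_univ] at h2
  have h3 : (M.image c).card ≤ M.card := Finset.card_image_le
  refine ⟨by omega, ?_⟩
  rw [← Finset.card_image_iff]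
  omega

lemma disjoint_missing (D : Cpx V) (d q : ℕ) (hd : ∀ s ∈ D.faces, s.card ≤ d)
    (hn : d + q + 1 ≤ Fintype.card V) (M : Finset (Finset V)) (hM : ∀ t, t ∈ M ↔ IsMissing D t)
    (hMc : M.card ≤ q + 1) :
    M.card = q + 1 ∧ ∀ s ∈ M, ∀ t ∈ M, s ≠ t → Disjoint s t := by
  classical
  have hV : Nonempty V := by
    rw [← Fintype.card_pos_iff]; omega
  have hne : ∀ t ∈ M, t.Nonempty := fun t ht => missing_nonempty D t ((hM t).mp ht)
  let c0 : Finset V → V := fun t => if h : t.Nonempty then h.choose else Classical.arbitrary V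
  have hc0 : ∀ t ∈ M, c0 t ∈ t := by
    intro t ht
    simp only [c0, dif_pos (hne t ht)]
    exact (hne t ht).choose_spec
  refine ⟨(transversal D d q hd hn M hM hMc c0 hc0).1, ?_⟩
  intro s hs t ht hst
  rw [Finset.disjoint_left]
  intro x hxs hxt
  let c : Finset V → V := fun u => if u = s ∨ u = t then x else c0 u
  have hc : ∀ u ∈ M, c u ∈ u := by
    intro u hu
    by_cases h : u = s ∨ u = t
    · simp only [c, if_pos h]
      rcases h with rfl | rfl
      · exact hxs
      · exact hxt
    · simp only [c, if_neg h]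
      exact hc0 u hu
  have h1 := (transversal D d q hd hn M hM hMc c hc).2
  refine hst (h1 (Finset.mem_coe.mpr hs) (Finset.mem_coe.mpr ht) ?_)
  simp [c]

end missing

section final

variable {V : Type} [DecidableEq V] [Fintype V]

lemma nonf_K_small (q i r : ℕ) (hi : 1 ≤ i) (hr : 1 ≤ r) (hri : r ≤ i)
    (k : ℕ) (hk : k ≤ r) : nonf (K q i r hi hr) k = ∅ := by
  ext s
  simp only [mem_nonf, not_mem_K, notMem_empty, iff_false, not_and, not_exists]
  intro hs j hj
  have h1 := Finset.card_le_card hj
  rw [card_block] at h1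
  have : r ≤ blk q i r j := by unfold blk; split_ifs <;> omega
  omega

/-- the list of missing faces of a complex with the same `f`-vector as `K` -/
lemma missing_structure (D : Cpx V) (q i r : ℕ) (hi : 1 ≤ i) (hr : 1 ≤ r) (hri : r ≤ i)
    (hd : ∀ s ∈ D.faces, s.card ≤ q * i + r)
    (hm : ∀ t, IsMissing D t → t.card ≤ i + 1)
    (hf : ∀ k, fnum D k = fnum (K q i r hi hr) k)
    (M : Finset (Finset V)) (hM : ∀ t, t ∈ M ↔ IsMissing D t) :
    Fintype.card V = q * i + r + q + 1 ∧ M.card = q + 1 ∧
      (∀ s ∈ M, ∀ t ∈ M, s ≠ t → Disjoint s t) ∧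
      ∃ t0 ∈ M, t0.card = r + 1 ∧ ∀ t ∈ M, t ≠ t0 → t.card = i + 1 := by
  have hcV : Fintype.card V = q * i + r + q + 1 := by
    rw [← fnum_one D, hf, fnum_one, card_VK]
  have hnf : ∀ k, (nonf D k).card = (nonf (K q i r hi hr) k).card := by
    intro k
    have h1 := card_nonf D k
    have h2 := card_nonf (K q i r hi hr) k
    rw [card_VK, ← hcV] at h2
    rw [hf] at h1
    omega
  refine ⟨hcV, ?_⟩
  have key : M.card ≤ q + 1 ∧ (M.card = q + 1 →
      ∃ t0 ∈ M, t0.card = r + 1 ∧ ∀ t ∈ M, t ≠ t0 → t.card = i + 1) := by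
    rcases Nat.lt_or_ge r i with hlt | hge
    · -- the case r < i
      have hb : (nonf (K q i r hi hr) (r + 1)) = {block q i r (Fin.last q)} := by
        ext s
        simp only [mem_nonf, not_mem_K, mem_singleton]
        constructor
        · rintro ⟨h1, j, hj⟩
          have h2 := Finset.card_le_card hj
          rw [card_block, h1] at h2
          by_cases hjq : j.1 < q
          · have : blk q i r j = i := by simp [blk, hjq]
            omega
          · have hjl : j = Fin.last q := by
              apply Fin.ext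
              have := j.2
              simp only [Fin.val_last]
              omega
            subst hjl
            refine (Finset.eq_of_subset_of_card_le hj ?_).symm
            rw [card_block, h1]
            have : blk q i r (Fin.last q) = r := by simp [blk]
            omega
        · rintro rfl
          refine ⟨?_, Fin.last q, Finset.Subset.refl _⟩
          rw [card_block]
          simp [blk]
      have h1 : (nonf D (r + 1)).card = 1 := by rw [hnf, hb]; simp
      obtain ⟨τ, hτ⟩ := Finset.card_eq_one.mp h1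
      have hτ' : τ ∈ nonf D (r + 1) := by rw [hτ]; simp
      rw [mem_nonf] at hτ'
      have hbl : (block q i r (Fin.last q)).card = r + 1 := by
        rw [card_block]; simp [blk]
      have hbn : block q i r (Fin.last q) ∉ (K q i r hi hr).faces := by
        rw [not_mem_K]; exact ⟨_, Finset.Subset.refl _⟩
      have h2 : ∀ k, r + 1 ≤ k → ((nonf D k).filter (fun s => ¬ τ ⊆ s)).card =
          ((nonf (K q i r hi hr) k).filter (fun s => ¬ block q i r (Fin.last q) ⊆ s)).card := by
        intro k hk
        have a1 := card_nonf_not D τ hτ'.2 k (by omega)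
        have a2 := card_nonf_not (K q i r hi hr) (block q i r (Fin.last q)) hbn k (by omega)
        rw [hbl, card_VK, ← hcV, ← hnf] at a2
        rw [hτ'.1] at a1
        omega
      have h3 : ∀ k, k ≤ i → ((nonf (K q i r hi hr) k).filter
          (fun s => ¬ block q i r (Fin.last q) ⊆ s)) = ∅ := by
        intro k hk
        ext s
        simp only [mem_filter, mem_nonf, not_mem_K, notMem_empty, iff_false, not_and, not_not]
        rintro ⟨h1, j, hj⟩
        have h2 := Finset.card_le_card hj
        rw [card_block, h1] at h2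
        by_cases hjq : j.1 < q
        · have : blk q i r j = i := by simp [blk, hjq]
          omega
        · have hjl : j = Fin.last q := by
            apply Fin.ext
            have := j.2
            simp only [Fin.val_last]
            omega
          subst hjl
          exact hj
      have h4 : ((nonf (K q i r hi hr) (i + 1)).filter
          (fun s => ¬ block q i r (Fin.last q) ⊆ s)).card ≤ q := by
        have h5 : ((nonf (K q i r hi hr) (i + 1)).filter
          (fun s => ¬ block q i r (Fin.last q) ⊆ s)) ⊆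
            (univ : Finset (Fin q)).image (fun j => block q i r j.castSucc) := by
          intro s hs
          simp only [mem_filter, mem_nonf, not_mem_K] at hs
          obtain ⟨⟨h1, j, hj⟩, h6⟩ := hs
          by_cases hjq : j.1 < q
          · have hb1 : blk q i r j = i := by simp [blk, hjq]
            rw [Finset.mem_image]
            refine ⟨⟨j.1, hjq⟩, mem_univ _, ?_⟩
            have : (⟨j.1, hjq⟩ : Fin q).castSucc = j := by apply Fin.ext; simp
            rw [this]
            refine Finset.eq_of_subset_of_card_le hj ?_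
            rw [card_block, h1, hb1]
          · exfalso
            have hjl : j = Fin.last q := by
              apply Fin.ext
              have := j.2
              simp only [Fin.val_last]
              omega
            subst hjl
            exact h6 hj
        refine (Finset.card_le_card h5).trans ?_
        refine Finset.card_image_le.trans ?_
        simp
      -- every missing face other than τ has size i + 1
      have h5 : ∀ t ∈ M, t ≠ τ → t ∈ (nonf D (i + 1)).filter (fun s => ¬ τ ⊆ s) := by
        intro t ht hne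
        have ht' := (hM t).mp ht
        have h6 : ¬ τ ⊆ t := by
          intro h
          exact hτ'.2 (ht'.2 τ (lt_of_le_of_ne h (Ne.symm hne)))
        have h7 := hm t ht'
        rw [mem_filter, mem_nonf]
        refine ⟨⟨?_, ht'.1⟩, h6⟩
        by_contra h8
        have h9 : t.card ≤ i := by omega
        rcases Nat.lt_or_ge r t.card with h10 | h10
        · have h11 := h2 t.card h10
          rw [h3 t.card h9, Finset.card_empty, Finset.card_eq_zero] at h11
          have : t ∈ (nonf D t.card).filter (fun s => ¬ τ ⊆ s) := by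
            rw [mem_filter, mem_nonf]
            exact ⟨⟨rfl, ht'.1⟩, h6⟩
          rw [h11] at this
          exact absurd this (Finset.notMem_empty _)
        · have h11 := hnf t.card
          rw [nonf_K_small q i r hi hr hri t.card h10, Finset.card_empty,
            Finset.card_eq_zero] at h11
          have : t ∈ nonf D t.card := by
            rw [mem_nonf]; exact ⟨rfl, ht'.1⟩
          rw [h11] at this
          exact absurd this (Finset.notMem_empty _)
      have h6 : (M.erase τ).card ≤ q := by
        refine le_trans (Finset.card_le_card (t := (nonf D (i + 1)).filter (fun s => ¬ τ ⊆ s)) ?_) ?_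
        · intro t ht
          rw [Finset.mem_erase] at ht
          exact h5 t ht.2 ht.1
        · rw [h2 (i + 1) (by omega)]; exact h4
      have h7 : M.card ≤ (M.erase τ).card + 1 := by
        have := Finset.pred_card_le_card_erase (s := M) (a := τ)
        omega
      refine ⟨by omega, fun hq => ⟨τ, ?_, hτ'.1, ?_⟩⟩
      · by_contra h
        rw [Finset.erase_eq_of_notMem h] at h6
        omega
      · intro t ht hne
        have := h5 t ht hne
        rw [mem_filter, mem_nonf] at this
        exact this.1.1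
    · -- the case r = i
      have hri' : r = i := le_antisymm hri hge
      subst hri'
      have h5 : M ⊆ nonf D (r + 1) := by
        intro t ht
        have ht' := (hM t).mp ht
        have h7 := hm t ht'
        rw [mem_nonf]
        refine ⟨?_, ht'.1⟩
        by_contra h8
        have h11 := hnf t.card
        rw [nonf_K_small q r r hi hr hri t.card (by omega), Finset.card_empty,
          Finset.card_eq_zero] at h11
        have : t ∈ nonf D t.card := by
          rw [mem_nonf]; exact ⟨rfl, ht'.1⟩
        rw [h11] at this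
        exact absurd this (Finset.notMem_empty _)
      have h6 : (nonf (K q r r hi hr) (r + 1)).card ≤ q + 1 := by
        have h7 : nonf (K q r r hi hr) (r + 1) ⊆
            (univ : Finset (Fin (q + 1))).image (fun j => block q r r j) := by
          intro s hs
          simp only [mem_nonf, not_mem_K] at hs
          obtain ⟨h1, j, hj⟩ := hs
          rw [Finset.mem_image]
          refine ⟨j, mem_univ _, ?_⟩
          refine Finset.eq_of_subset_of_card_le hj ?_
          rw [card_block, h1]
          have : blk q r r j = r := by simp [blk]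
          rw [this]
        refine (Finset.card_le_card h7).trans ?_
        refine Finset.card_image_le.trans ?_
        simp
      refine ⟨?_, fun hq => ?_⟩
      · have := Finset.card_le_card h5
        rw [hnf] at this
        omega
      · have hMne : M.Nonempty := by
          rw [← Finset.card_pos]; omega
        obtain ⟨t0, ht0⟩ := hMne
        refine ⟨t0, ht0, ?_, ?_⟩
        · have := h5 ht0
          rw [mem_nonf] at this
          exact this.1
        · intro t ht _
          have := h5 ht
          rw [mem_nonf] at this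
          exact this.1
  have h1 := disjoint_missing D (q * i + r) q hd (by omega) M hM key.1
  exact ⟨h1.1, h1.2, key.2 h1.1⟩

lemma iso_of_structure (D : Cpx V) (q i r : ℕ) (hi : 1 ≤ i) (hr : 1 ≤ r)
    (M : Finset (Finset V)) (hM : ∀ t, t ∈ M ↔ IsMissing D t)
    (hcV : Fintype.card V = q * i + r + q + 1) (hMc : M.card = q + 1)
    (hdis : ∀ s ∈ M, ∀ t ∈ M, s ≠ t → Disjoint s t)
    (hsz : ∃ t0 ∈ M, t0.card = r + 1 ∧ ∀ t ∈ M, t ≠ t0 → t.card = i + 1) :
    Iso D (K q i r hi hr) := by
  classical
  obtain ⟨t0, ht0, hc0, hc1⟩ := hsz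
  have hcM : Fintype.card (Fin (q + 1)) = Fintype.card {t // t ∈ M} := by
    rw [Fintype.card_fin, Fintype.card_coe, hMc]
  let e0 : Fin (q + 1) ≃ {t // t ∈ M} := Fintype.equivOfCardEq hcM
  let e : Fin (q + 1) ≃ {t // t ∈ M} := (Equiv.swap (Fin.last q) (e0.symm ⟨t0, ht0⟩)).trans e0
  have he : e (Fin.last q) = ⟨t0, ht0⟩ := by simp [e]
  have hce : ∀ j, ((e j).1).card = blk q i r j + 1 := by
    intro j
    by_cases hj : j.1 < q
    · have h1 : j ≠ Fin.last q := by
        rintro rfl
        simp at hj
      have h2 : (e j).1 ≠ t0 := by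
        intro h
        apply h1
        apply e.injective
        rw [he]
        exact Subtype.ext h
      rw [hc1 _ (e j).2 h2]
      simp [blk, hj]
    · have h1 : j = Fin.last q := by
        apply Fin.ext
        have := j.2
        simp only [Fin.val_last]
        omega
      subst h1
      rw [he, hc0]
      simp [blk]
  have hcf : ∀ j, Fintype.card (Fin (blk q i r j + 1)) = Fintype.card {x // x ∈ (e j).1} := by
    intro j
    rw [Fintype.card_fin, Fintype.card_coe, hce]
  let f : ∀ j, Fin (blk q i r j + 1) ≃ {x // x ∈ (e j).1} := fun j => Fintype.equivOfCardEq (hcf j)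
  let φ : (Σ j : Fin (q + 1), Fin (blk q i r j + 1)) → V := fun p => (f p.1 p.2).1
  have hφmem : ∀ p, φ p ∈ (e p.1).1 := fun p => (f p.1 p.2).2
  have hφinj : Function.Injective φ := by
    rintro ⟨j, x⟩ ⟨j', x'⟩ h
    have h1 := hφmem ⟨j, x⟩
    have h2 := hφmem ⟨j', x'⟩
    rw [← h] at h2
    have h3 : j = j' := by
      by_contra hne
      have h4 : (e j).1 ≠ (e j').1 := fun hh => hne (e.injective (Subtype.ext hh))
      exact (Finset.disjoint_left.mp (hdis _ (e j).2 _ (e j').2 h4)) h1 h2
    subst h3
    have h5 : f j x = f j x' := Subtype.ext h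
    rw [(f j).injective h5]
  have hφbij : Function.Bijective φ := by
    rw [Fintype.bijective_iff_injective_and_card]
    exact ⟨hφinj, by rw [card_VK, hcV]⟩
  let ψ := Equiv.ofBijective φ hφbij
  have hψ : ∀ p, ψ p = φ p := fun p => rfl
  refine ⟨ψ.symm, fun s => ?_⟩
  rw [← not_iff_not, not_mem_K]
  constructor
  · intro hs
    obtain ⟨t, hts, ht⟩ := exists_missing D s hs
    have htM := (hM t).mpr ht
    refine ⟨e.symm ⟨t, htM⟩, ?_⟩
    intro p hp
    rw [mem_block] at hp
    rw [Finset.mem_map]
    refine ⟨ψ p, hts ?_, by simp⟩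
    have h1 := hφmem p
    rw [hp] at h1
    rw [hψ]
    simpa using h1
  · rintro ⟨j, hj⟩ hs
    have h1 := ((hM _).mp (e j).2).1
    apply h1
    refine D.down s hs _ ?_
    intro x hx
    obtain ⟨y, hy⟩ := (f j).surjective ⟨x, hx⟩
    have h2 : (⟨j, y⟩ : Σ j : Fin (q + 1), Fin (blk q i r j + 1)) ∈ block q i r j := by
      rw [mem_block]
    have h3 := hj h2
    rw [Finset.mem_map] at h3
    obtain ⟨v, hv, hv2⟩ := h3
    have h4 : v = ψ ⟨j, y⟩ := by
      rw [← hv2]; simp
    have h5 : ψ ⟨j, y⟩ = x := by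
      rw [hψ]
      simp only [φ]
      rw [hy]
    rw [← h5, ← h4]
    exact hv

end final

end Pool.Agent.Helper52.MF
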